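import Pool.Agent.PKT.Targets

set_option autoImplicit false

/-! BSE3: the residues of a point of the base; polynomials instead of sums over `MonS`. -/

namespace PKT

open MvPolynomial RD PKD PKS

namespace BSE3_

/-- the exponent as a finitely supported function -/
noncomputable def ex {d n D : ℕ} (α : MonS d n D) : (Fin d ⊕ Fin n) →₀ ℕ :=
  Finsupp.equivFunOnFinite.symm fun j => (α.1 j : ℕ)

theorem ex_apply {d n D : ℕ} (α : MonS d n D) (t : Fin d ⊕ Fin n) : ex α t = (α.1 t : ℕ) := rfl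

theorem ex_inj {d n D : ℕ} : Function.Injective (ex (d := d) (n := n) (D := D)) := by
  intro α β h
  apply Subtype.ext
  funext j
  apply Fin.ext
  have := DFunLike.congr_fun h j
  simpa [ex] using this

theorem sum_mon {R : Type} [CommRing R] {S : Type} [AddCommMonoid S] {d n D : ℕ}
    (q : MvPolynomial (Fin d ⊕ Fin n) R)
    (hq : q.totalDegree ≤ D) (g : ((Fin d ⊕ Fin n) →₀ ℕ) → S) (hg : ∀ t, t ∉ q.support → g t = 0) :
    ∑ t ∈ q.support, g t = ∑ α : MonS d n D, g (ex α) := by
  classical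
  have h1 : ∑ α : MonS d n D, g (ex α) =
      ∑ t ∈ (Finset.univ : Finset (MonS d n D)).image ex, g t := by
    rw [Finset.sum_image fun x _ y _ h => ex_inj h]
  rw [h1]
  refine Finset.sum_subset ?_ ?_
  · intro t ht
    have hdeg : ∑ j, t j ≤ D := by
      have := le_totalDegree ht
      rw [Finsupp.sum_fintype _ _ (fun _ => rfl)] at this
      exact this.trans hq
    refine Finset.mem_image.2 ⟨⟨fun j => ⟨t j, ?_⟩, hdeg⟩, Finset.mem_univ _, ?_⟩
    · have : t j ≤ ∑ j, t j := Finset.single_le_sum (fun i _ => Nat.zero_le _) (Finset.mem_univ j)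
      omega
    · ext j
      simp [ex]
  · intro t _ ht
    exact hg t ht

theorem um_eq {k : Type} [Field k] {d n D : ℕ} (α : MonS d n D) :
    um k α = monomial (ex α) 1 := by
  unfold um
  rw [monomial_eq, Finsupp.prod_fintype]
  · simp [ex]
  · intro i
    exact pow_zero _

theorem ut_eq {k : Type} [Field k] {d n D : ℕ} (W : Fin n → Finset (Fin d)) (T : Typ d)
    (V : Finset (Fin d)) (α : MonS d n D) : ut k W T V α = utf k W T V D (ex α) := by
  classical
  unfold ut utf
  cases hT : T V with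
  | none => simp only [um_eq]
  | some Y =>
    simp only [um_eq]
    have hdeg : (ex α).degree = ∑ j, (α.1 j : ℕ) := by
      rw [Finsupp.degree_eq_sum]
      rfl
    have hiff : (∑ j, (α.1 j : ℕ) = D ∧ ∀ t, (α.1 t : ℕ) ≠ 0 →
          Sum.elim (fun m => m ∈ Y) (fun j => ¬ Disjoint (W j) Y) t) ↔
        ((ex α).degree = D ∧ ∀ t ∈ (ex α).support,
          Sum.elim (fun m => m ∈ Y) (fun j => ¬ Disjoint (W j) Y) t) := by
      rw [hdeg]
      refine and_congr_right fun _ => ?_
      refine forall_congr' fun t => ?_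
      rw [Finsupp.mem_support_iff, ex_apply]
    by_cases hc : (∑ j, (α.1 j : ℕ) = D ∧ ∀ t, (α.1 t : ℕ) ≠ 0 →
          Sum.elim (fun m => m ∈ Y) (fun j => ¬ Disjoint (W j) Y) t)
    · rw [if_pos hc, if_pos (hiff.1 hc)]
    · rw [if_neg hc, if_neg (fun h => hc (hiff.2 h))]

end BSE3_

open BSE3_ in
theorem p_BSE3 (h : PKS.T_BSE) : T_BSE3 := by
  classical
  intro Ω k _ _ v r hr ϖ hϖ d n W ρ b hb x s hs hϖx
  obtain ⟨T, x', s', hT, hB, hY, hmain⟩ := h Ω k v r hr ϖ hϖ d n W ρ b hb x s hs hϖx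
  refine ⟨T, x', s', hT, hB, hY, ?_⟩
  intro V M hM D f hf hvars hcoef
  have h1 := hmain V M hM D (fun α => f.coeff (ex α)) (fun α => hcoef _) (by
    intro α t hα ht
    refine hvars t ?_
    rw [mem_vars_iff_mem_support]
    refine ⟨ex α, mem_support_iff.2 hα, ?_⟩
    rw [Finsupp.mem_support_iff, ex_apply]
    exact ht)
  have hev : eval (Sum.elim x s) f =
      ∑ α : MonS d n D, f.coeff (ex α) * ∏ j, Sum.elim x s j ^ (α.1 j : ℕ) := by
    rw [eval_eq', sum_mon f hf (fun t => f.coeff t * ∏ j, Sum.elim x s j ^ t j)]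
    · rfl
    · intro t ht
      rw [notMem_support_iff.1 ht, zero_mul]
  rw [hev]
  refine ⟨h1.1, h1.2.trans ?_⟩
  rw [sum_mon f hf (fun t => r (f.coeff t) * eval (Sum.elim x' s') (utf k W T V D t))]
  · refine Finset.sum_congr rfl fun α _ => ?_
    rw [ut_eq]
  · intro t ht
    rw [notMem_support_iff.1 ht]
    have hr0 : r 0 = 0 := (hr.ker 0 (by simp)).2 (by simp)
    rw [hr0, zero_mul]

end PKT
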