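import Pool.Agent.PKT.Targets

/-!
# PKT: target CTL

Counting points when all `n` coordinates satisfy a relation.
-/

set_option autoImplicit false

namespace PKT

open MvPolynomial RD PKD PKS

namespace CTL_

open Finset

section

variable {M : Type} [Fintype M] {k : Type} [Field k]

/-- the coefficients of `P` as a polynomial in the variable `i` -/
noncomputable def cf (P : MvPolynomial M k) (i : M) (l : ℕ) : MvPolynomial M k :=
  ∑ α ∈ P.support.filter (fun α => α i = l), monomial (α.erase i) (P.coeff α)

theorem cf_sum (P : MvPolynomial M k) (i : M) (L : ℕ) (hL : P.totalDegree ≤ L) :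
    P = ∑ l ∈ range (L + 1), cf P i l * X i ^ l := by
  have h1 : ∀ α ∈ P.support, α i ∈ range (L + 1) := by
    intro α hα
    have h2 := le_totalDegree hα
    have h3 : α i ≤ α.sum fun _ e => e := by
      by_cases h : i ∈ α.support
      · exact Finset.single_le_sum (f := fun j => α j) (fun _ _ => Nat.zero_le _) h
      · rw [Finsupp.notMem_support_iff.1 h]
        exact Nat.zero_le _
    rw [mem_range]
    omega
  have h2 : ∑ α ∈ P.support, monomial α (P.coeff α) =
      ∑ l ∈ range (L + 1), ∑ α ∈ P.support.filter (fun α => α i = l), monomial α (P.coeff α) :=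
    (Finset.sum_fiberwise_of_maps_to h1 _).symm
  rw [support_sum_monomial_coeff] at h2
  nth_rewrite 1 [h2]
  refine Finset.sum_congr rfl fun l _ => ?_
  unfold cf
  rw [Finset.sum_mul]
  refine Finset.sum_congr rfl fun α hα => ?_
  have h3 : α i = l := (mem_filter.1 hα).2
  rw [← monomial_add_single, ← h3, Finsupp.erase_add_single]

theorem cf_vars (P : MvPolynomial M k) (i : M) (l : ℕ) (t : M) (ht : t ∈ (cf P i l).vars) :
    t ∈ P.vars ∧ t ≠ i := by
  classical
  rw [mem_vars_iff_mem_support] at ht
  obtain ⟨β, hβ, htβ⟩ := ht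
  unfold cf at hβ
  have h1 := MvPolynomial.support_sum hβ
  simp only [mem_biUnion] at h1
  obtain ⟨α, hα, hβα⟩ := h1
  have h2 : β = α.erase i := by
    have := support_monomial_subset hβα
    exact mem_singleton.1 this
  rw [h2, Finsupp.support_erase] at htβ
  obtain ⟨h3, h4⟩ := mem_erase.1 htβ
  refine ⟨?_, h3⟩
  rw [mem_vars_iff_mem_support]
  exact ⟨α, (mem_filter.1 hα).1, h4⟩

theorem cf_deg (P : MvPolynomial M k) (i : M) (l : ℕ) : (cf P i l).totalDegree ≤ P.totalDegree := by
  classical
  refine totalDegree_finsetSum_le fun α hα => ?_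
  refine le_trans (totalDegree_monomial_le _ _) ?_
  refine le_trans ?_ (le_totalDegree (mem_filter.1 hα).1)
  unfold Finsupp.sum
  rw [Finsupp.support_erase]
  refine le_trans (Finset.sum_le_sum fun t ht => ?_) (Finset.sum_le_sum_of_subset (erase_subset i _))
  rw [Finsupp.erase_ne (ne_of_mem_erase ht)]
  exact le_rfl

theorem cf_ne (P : MvPolynomial M k) (hP : P ≠ 0) (i : M) (L : ℕ) (hL : P.totalDegree ≤ L) :
    ∃ l ∈ range (L + 1), cf P i l ≠ 0 := by
  by_contra h
  push Not at h
  apply hP
  rw [cf_sum P i L hL]
  refine Finset.sum_eq_zero fun l hl => ?_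
  rw [h l hl, zero_mul]

theorem eval_congr (P : MvPolynomial M k) (y z : M → k) (h : ∀ t ∈ P.vars, y t = z t) :
    eval y P = eval z P := by
  have := eval₂Hom_congr' (f₁ := RingHom.id k) (f₂ := RingHom.id k) (g₁ := y) (g₂ := z) (p₁ := P)
    (p₂ := P) rfl (fun i hi _ => h i hi) rfl
  exact this

/-- case (a): counting the points whose other coordinates are algebraic over the coordinates in
`B` -/
theorem count_B [DecidableEq M] (E : Finset k) (q : ℕ) (hE : E.card ≤ q) (L n : ℕ) (B : Finset M)
    (hB : B.card = n) (Q : M → MvPolynomial M k) (lc : M → ℕ)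
    (hQv : ∀ i, i ∉ B → ∀ t ∈ (Q i).vars, t ∈ insert i B) (hQd : ∀ i, i ∉ B → (Q i).totalDegree ≤ L)
    (hlc : ∀ i, i ∉ B → lc i ∈ range (L + 1))
    (Y : Finset (M → k)) (hY : ∀ y ∈ Y, (∀ i, y i ∈ E) ∧
      ∀ i, i ∉ B → eval y (Q i) = 0 ∧ eval y (cf (Q i) i (lc i)) ≠ 0) :
    Y.card ≤ q ^ n * (L + 1) ^ Fintype.card M := by
  classical
  -- the polynomials in one variable
  let R : (M → k) → M → Polynomial k := fun z i =>
    ∑ l ∈ range (L + 1), Polynomial.C (eval z (cf (Q i) i l)) * Polynomial.X ^ l
  let Z : Finset (M → k) := Fintype.piFinset fun j => if j ∈ B then E else {0}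
  let F : (M → k) → Finset (M → k) := fun z =>
    Fintype.piFinset fun j => if j ∈ B then {z j} else (R z j).roots.toFinset
  have hR : ∀ z i l, l ∈ range (L + 1) → (R z i).coeff l = eval z (cf (Q i) i l) := by
    intro z i l hl
    simp only [R]
    rw [Polynomial.finsetSum_coeff, Finset.sum_eq_single l]
    · simp
    · intro l' _ hne
      rw [Polynomial.coeff_C_mul, Polynomial.coeff_X_pow, if_neg hne.symm, mul_zero]
    · intro h
      exact absurd hl h
  have hRd : ∀ z i, (R z i).natDegree ≤ L := by
    intro z i
    refine Polynomial.natDegree_sum_le_of_forall_le _ _ fun l hl => ?_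
    refine le_trans (Polynomial.natDegree_C_mul_X_pow_le _ _) ?_
    have := mem_range.1 hl
    omega
  have hZ : Z.card ≤ q ^ n := by
    simp only [Z]
    rw [Fintype.card_piFinset]
    have h1 : ∏ j, (if j ∈ B then E else ({0} : Finset k)).card = ∏ j ∈ B, E.card := by
      rw [← Finset.prod_subset (Finset.subset_univ B)
        (f := fun j => (if j ∈ B then E else ({0} : Finset k)).card)]
      · refine Finset.prod_congr rfl fun j hj => ?_
        rw [if_pos hj]
      · intro j _ hj
        rw [if_neg hj, Finset.card_singleton]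
    rw [h1, Finset.prod_const, hB]
    exact Nat.pow_le_pow_left hE n
  have hF : ∀ z ∈ Z, (F z).card ≤ (L + 1) ^ Fintype.card M := by
    intro z _
    simp only [F]
    rw [Fintype.card_piFinset]
    refine le_trans (Finset.prod_le_pow_card _ _ (L + 1) fun j _ => ?_) ?_
    · by_cases hj : j ∈ B
      · rw [if_pos hj, Finset.card_singleton]
        omega
      · rw [if_neg hj]
        have h1 := Multiset.toFinset_card_le (R z j).roots
        have h2 := Polynomial.card_roots' (R z j)
        have h3 := hRd z j
        omega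
    · rw [Finset.card_univ]
  have hsub : Y ⊆ Z.biUnion F := by
    intro y hy
    obtain ⟨hyE, hyQ⟩ := hY y hy
    let z : M → k := fun j => if j ∈ B then y j else 0
    have hzy : ∀ i, i ∉ B → ∀ l, eval z (cf (Q i) i l) = eval y (cf (Q i) i l) := by
      intro i hi l
      refine eval_congr _ _ _ fun t ht => ?_
      obtain ⟨h1, h2⟩ := cf_vars _ _ _ t ht
      have h3 : t ∈ B := by
        rcases Finset.mem_insert.1 (hQv i hi t h1) with h | h
        · exact absurd h h2
        · exact h
      simp only [z]
      rw [if_pos h3]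
    rw [mem_biUnion]
    refine ⟨z, ?_, ?_⟩
    · simp only [Z, Fintype.mem_piFinset]
      intro j
      by_cases hj : j ∈ B
      · rw [if_pos hj]
        simp only [z]
        rw [if_pos hj]
        exact hyE j
      · rw [if_neg hj]
        simp only [z]
        rw [if_neg hj]
        exact Finset.mem_singleton_self _
    · simp only [F, Fintype.mem_piFinset]
      intro j
      by_cases hj : j ∈ B
      · rw [if_pos hj]
        simp only [z]
        rw [if_pos hj]
        exact Finset.mem_singleton_self _
      · rw [if_neg hj, Multiset.mem_toFinset]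
        have hne : R z j ≠ 0 := by
          intro h0
          have h1 := hR z j (lc j) (hlc j hj)
          rw [h0, Polynomial.coeff_zero, hzy j hj] at h1
          exact (hyQ j hj).2 h1.symm
        rw [Polynomial.mem_roots hne, Polynomial.IsRoot.def]
        simp only [R]
        rw [Polynomial.eval_finsetSum]
        have h2 : eval y (Q j) = ∑ l ∈ range (L + 1), eval y (cf (Q j) j l) * y j ^ l := by
          conv_lhs => rw [cf_sum (Q j) j L (hQd j hj)]
          rw [map_sum]
          refine Finset.sum_congr rfl fun l _ => ?_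
          rw [map_mul, map_pow, eval_X]
        rw [← (hyQ j hj).1, h2]
        refine Finset.sum_congr rfl fun l _ => ?_
        rw [Polynomial.eval_mul, Polynomial.eval_C, Polynomial.eval_pow, Polynomial.eval_X,
          hzy j hj]
  calc Y.card ≤ (Z.biUnion F).card := Finset.card_le_card hsub
    _ ≤ Z.card * (L + 1) ^ Fintype.card M := Finset.card_biUnion_le_card_mul _ _ _ hF
    _ ≤ q ^ n * (L + 1) ^ Fintype.card M := Nat.mul_le_mul_right _ hZ

end

end CTL_

open CTL_ in
theorem p_CTL : T_CTL := by
  classical
  intro M _ n L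
  induction n with
  | zero =>
    refine ⟨0, ?_⟩
    intro k _ E q _ P hP Y hY
    have hY0 : Y = ∅ := by
      rw [Finset.eq_empty_iff_forall_notMem]
      intro y hy
      obtain ⟨-, h1⟩ := hY y hy
      obtain ⟨h2, h3, -⟩ := hP ∅ rfl
      have h4 : (P ∅).vars = ∅ := by
        rw [Finset.eq_empty_iff_forall_notMem]
        intro t ht
        exact absurd (h3 t ht) (Finset.notMem_empty t)
      have h5 := h1 ∅ rfl
      rw [vars_eq_empty_iff_eq_C] at h4
      rw [h4, eval_C] at h5
      apply h2
      rw [h4, h5, C_0]
    rw [hY0]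
    simp
  | succ n ih =>
    obtain ⟨C, hC⟩ := ih
    refine ⟨2 ^ Fintype.card M * (L + 1) ^ Fintype.card M +
      Fintype.card (Finset M → Option M) * C, ?_⟩
    intro k _ E q hE P hP Y hY
    -- the chosen coefficients
    have hch : ∀ (B : Finset M) (i : M), ∃ l, B.card = n → i ∉ B →
        l ∈ Finset.range (L + 1) ∧ cf (P (insert i B)) i l ≠ 0 := by
      intro B i
      by_cases h : B.card = n ∧ i ∉ B
      · obtain ⟨h1, h2, h3⟩ := hP (insert i B) (by rw [Finset.card_insert_of_notMem h.2, h.1])
        obtain ⟨l, hl, hne⟩ := cf_ne _ h1 i L h3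
        exact ⟨l, fun _ _ => ⟨hl, hne⟩⟩
      · exact ⟨0, fun e1 e2 => absurd ⟨e1, e2⟩ h⟩
    choose lc hlc using hch
    -- the sets
    let YB : Finset M → Finset (M → k) := fun B =>
      if B.card = n then Y.filter fun y => ∀ i, i ∉ B → eval y (cf (P (insert i B)) i (lc B i)) ≠ 0
      else ∅
    let P' : (Finset M → Option M) → Finset M → MvPolynomial M k := fun φ B =>
      match φ B with
      | none => 1
      | some i => if i ∉ B then cf (P (insert i B)) i (lc B i) else 1
    let Yφ : (Finset M → Option M) → Finset (M → k) := fun φ =>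
      Y.filter fun y => ∀ B, B.card = n → eval y (P' φ B) = 0
    have hcov : Y ⊆ (Finset.univ.biUnion YB) ∪ (Finset.univ.biUnion Yφ) := by
      intro y hy
      rw [Finset.mem_union]
      by_cases h : ∃ B, y ∈ YB B
      · left
        obtain ⟨B, hB⟩ := h
        exact Finset.mem_biUnion.2 ⟨B, Finset.mem_univ _, hB⟩
      · right
        push Not at h
        have h1 : ∀ B : Finset M, ∃ o : Option M, B.card = n → ∃ i, o = some i ∧ i ∉ B ∧
            eval y (cf (P (insert i B)) i (lc B i)) = 0 := by
          intro B
          by_cases hB : B.card = n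
          · have h2 := h B
            simp only [YB] at h2
            rw [if_pos hB, Finset.mem_filter] at h2
            push Not at h2
            obtain ⟨i, hi, h3⟩ := h2 hy
            exact ⟨some i, fun _ => ⟨i, rfl, hi, h3⟩⟩
          · exact ⟨none, fun e => absurd e hB⟩
        choose φ hφ using h1
        refine Finset.mem_biUnion.2 ⟨φ, Finset.mem_univ _, ?_⟩
        simp only [Yφ]
        refine Finset.mem_filter.2 ⟨hy, fun B hB => ?_⟩
        obtain ⟨i, h2, h3, h4⟩ := hφ B hB
        simp only [P']
        rw [h2]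
        simp only
        rw [if_pos h3]
        exact h4
    have hYB : ∀ B, (YB B).card ≤ q ^ n * (L + 1) ^ Fintype.card M := by
      intro B
      by_cases hB : B.card = n
      · refine count_B E q hE L n B hB (fun i => P (insert i B)) (lc B) ?_ ?_ ?_ _ ?_
        · intro i hi
          exact (hP (insert i B) (by rw [Finset.card_insert_of_notMem hi, hB])).2.1
        · intro i hi
          exact (hP (insert i B) (by rw [Finset.card_insert_of_notMem hi, hB])).2.2
        · intro i hi
          exact (hlc B i hB hi).1
        · intro y hy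
          simp only [YB] at hy
          rw [if_pos hB, Finset.mem_filter] at hy
          obtain ⟨h1, h2⟩ := hy
          refine ⟨(hY y h1).1, fun i hi => ⟨?_, h2 i hi⟩⟩
          exact (hY y h1).2 (insert i B) (by rw [Finset.card_insert_of_notMem hi, hB])
      · simp only [YB]
        rw [if_neg hB]
        simp
    have hYφ : ∀ φ, (Yφ φ).card * q ≤ C * q ^ n := by
      intro φ
      refine hC k E q hE (P' φ) ?_ (Yφ φ) ?_
      · intro B hB
        simp only [P']
        rcases hφB : φ B with _ | i
        · simp
        · simp only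
          by_cases hi : i ∉ B
          · rw [if_pos hi]
            obtain ⟨h1, h2, h3⟩ := hP (insert i B) (by rw [Finset.card_insert_of_notMem hi, hB])
            refine ⟨(hlc B i hB hi).2, fun t ht => ?_, le_trans (cf_deg _ _ _) h3⟩
            obtain ⟨h4, h5⟩ := cf_vars _ _ _ t ht
            rcases Finset.mem_insert.1 (h2 t h4) with h | h
            · exact absurd h h5
            · exact h
          · rw [if_neg hi]
            simp
      · intro y hy
        obtain ⟨h1, h2⟩ := Finset.mem_filter.1 hy
        exact ⟨(hY y h1).1, h2⟩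
    rcases Nat.eq_zero_or_pos q with hq | hq
    · rw [hq]
      simp
    have h1 : Y.card ≤ ∑ B : Finset M, (YB B).card + ∑ φ, (Yφ φ).card := by
      refine le_trans (Finset.card_le_card hcov) (le_trans (Finset.card_union_le _ _) ?_)
      exact Nat.add_le_add Finset.card_biUnion_le Finset.card_biUnion_le
    have h2 : ∑ B : Finset M, (YB B).card ≤
        2 ^ Fintype.card M * (q ^ n * (L + 1) ^ Fintype.card M) := by
      refine le_trans (Finset.sum_le_card_nsmul _ _ _ fun B _ => hYB B) ?_
      rw [Finset.card_univ, Fintype.card_finset, smul_eq_mul]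
    have h3 : (∑ φ, (Yφ φ).card) * q ≤ Fintype.card (Finset M → Option M) * (C * q ^ n) := by
      rw [Finset.sum_mul]
      refine le_trans (Finset.sum_le_card_nsmul _ _ _ fun φ _ => hYφ φ) ?_
      rw [Finset.card_univ, smul_eq_mul]
    have h4 : q ^ n ≤ q ^ (n + 1) := Nat.pow_le_pow_right hq (Nat.le_succ n)
    calc Y.card * q ≤ (∑ B : Finset M, (YB B).card + ∑ φ, (Yφ φ).card) * q :=
          Nat.mul_le_mul_right _ h1
      _ = (∑ B : Finset M, (YB B).card) * q + (∑ φ, (Yφ φ).card) * q := add_mul _ _ _
      _ ≤ 2 ^ Fintype.card M * (q ^ n * (L + 1) ^ Fintype.card M) * q +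
          Fintype.card (Finset M → Option M) * (C * q ^ n) :=
          Nat.add_le_add (Nat.mul_le_mul_right _ h2) h3
      _ = 2 ^ Fintype.card M * (L + 1) ^ Fintype.card M * q ^ (n + 1) +
          Fintype.card (Finset M → Option M) * C * q ^ n := by ring
      _ ≤ 2 ^ Fintype.card M * (L + 1) ^ Fintype.card M * q ^ (n + 1) +
          Fintype.card (Finset M → Option M) * C * q ^ (n + 1) :=
          Nat.add_le_add_left (Nat.mul_le_mul_left _ h4) _
      _ = _ := by ring

end PKT
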