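import Pool.Agent.PKT.Targets
import Pool.Agent.PKE.DAT

/-!
DAT2: leading coefficients of the echelon bases of all the coordinate sections of a subspace
-/

set_option autoImplicit false

namespace PKT

open MvPolynomial RD PKD PKS

namespace DAT2_

/-- the choices of the columns -/
abbrev Bt (g e : ℕ) : Type := Finset (Fin g) → Finset (Fin g) → (Fin e → Fin g)

open Classical in
/-- the data attached to a choice of columns and to the leading coefficients -/
noncomputable def mk {g e : ℕ} {k : Type} [Field k] (bb : Bt g e)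
    (y : Bool → Bool → (Fin e → Fin g) → k) : Bool → Bool → Dt g k :=
  fun c s S J j i => if h : ∃ l, bb S J l = j then
    y c s (Function.update (bb S J) h.choose i) / y c s (bb S J) else 0

/-- the condition of the target -/
def Ech {F : Type} [Field F] {g : ℕ} (U : Submodule F (Fin g → F)) (S J : Finset (Fin g))
    (τ : Fin g → Fin g → F) : Prop :=
  (∀ j ∈ J, τ j ∈ U ∧ τ j j = 1 ∧ (∀ j' ∈ J, j' ≠ j → τ j j' = 0) ∧ ∀ i ∈ S, τ j i = 0) ∧
    J.card = Module.finrank F (U ⊓ (⨅ i ∈ S, LinearMap.ker (LinearMap.proj i :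
      (Fin g → F) →ₗ[F] F)) : Submodule F (Fin g → F))

lemma Ech.uniq (h3 : T_UNQ) {F : Type} [Field F] {g : ℕ} {U : Submodule F (Fin g → F)}
    {S J : Finset (Fin g)} {τ τ' : Fin g → Fin g → F} (h : Ech U S J τ) (h' : Ech U S J τ') :
    ∀ j ∈ J, τ j = τ' j := by
  have key : ∀ {τ : Fin g → Fin g → F}, Ech U S J τ → ∀ j ∈ J,
      τ j ∈ (U ⊓ (⨅ i ∈ S, LinearMap.ker (LinearMap.proj i :
      (Fin g → F) →ₗ[F] F)) : Submodule F (Fin g → F)) ∧ τ j j = 1 ∧
        ∀ j' ∈ J, j' ≠ j → τ j j' = 0 := by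
    intro τ h j hj
    obtain ⟨h1, h2, h3, h4⟩ := h.1 j hj
    refine ⟨Submodule.mem_inf.2 ⟨h1, ?_⟩, h2, h3⟩
    simp only [Submodule.mem_iInf]
    intro i hi
    exact h4 i hi
  exact h3 F g _ J h.2 τ τ' (key h) (key h')

lemma red_div {Ω k : Type} [Field Ω] [Field k] {v : AbsoluteValue Ω ℝ} {r : Ω → k} (hr : Red v r)
    {A B : Ω} (hA : v A = 1) (hB : v B = 1) : r A = r (A * B) / r B := by
  have h1 : r B ≠ 0 := by
    intro h
    have := (hr.ker B hB.le).1 h
    linarith
  rw [hr.mul A B hA.le hB.le, mul_div_cancel_right₀ _ h1]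

end DAT2_

open DAT2_

theorem p_DAT2 (h1 : T_JLC) (h2 : PKE.T_ECH) (h3 : PKS.T_UNQ) (h4 : PKS.T_VAL) : T_DAT2 := by
  classical
  intro g e
  choose CB hCB using (fun b0 : Fin e → Fin g =>
    h1 (PKE.DAT_.Vt g e b0) (Fin e → Fin g) (fun b => PKE.dn e g b0 b))
  refine ⟨∑ b0 : Fin e → Fin g, CB b0 * Fintype.card (Bt g e), ?_⟩
  intro k _ p hp hp3 hk
  choose Y hYc hY using (fun b0 : Fin e → Fin g => hCB b0 k p hp hp3 hk)
  refine ⟨(Finset.univ.filter (fun b0 : Fin e → Fin g => Function.Injective b0)).biUnion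
    (fun b0 => ((Finset.univ : Finset (Bt g e)) ×ˢ Y b0).image (fun q => mk q.1 q.2)), ?_, ?_⟩
  · refine Finset.card_biUnion_le.trans ?_
    rw [Finset.sum_mul]
    refine (Finset.sum_le_sum (g := fun b0 : Fin e → Fin g =>
      CB b0 * Fintype.card (Bt g e) * p ^ (2 * (e * (g - e)))) ?_).trans
      (Finset.sum_le_sum_of_subset (Finset.filter_subset _ _))
    intro b0 hb0
    refine Finset.card_image_le.trans ?_
    rw [Finset.card_product, Finset.card_univ]
    have h5 := hYc b0
    rw [PKE.DAT_.card_V g e b0 (Finset.mem_filter.mp hb0).2] at h5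
    calc Fintype.card (Bt g e) * (Y b0).card
        ≤ Fintype.card (Bt g e) * (CB b0 * p ^ (2 * (e * (g - e)))) := Nat.mul_le_mul_left _ h5
      _ = _ := by ring
  · intro Ω _ _ _ v r hr hvp a sp t n ha hsp U hU
    obtain ⟨b0, z, hb0, hE⟩ := h2 (IntermediateField.adjoin ℚ {a}) g e U hU
    -- the choice of the columns
    have hbb : ∀ S J : Finset (Fin g), ∃ b : Fin e → Fin g,
        (∃ τ, Ech U S J τ) → aeval z (PKE.dn e g b0 b) ≠ 0 ∧ ∃ τ, Ech U S J τ ∧
          ∀ j ∈ J, ∃ l, b l = j ∧ ∀ i, τ j i =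
            aeval z (PKE.nm e g b0 b l i) / aeval z (PKE.dn e g b0 b) := by
      intro S J
      by_cases h : ∃ τ, Ech U S J τ
      · obtain ⟨τ, hτ⟩ := h
        obtain ⟨b, hb, hb'⟩ := hE S J τ hτ.1 hτ.2
        exact ⟨b, fun _ => ⟨hb, τ, hτ, hb'⟩⟩
      · exact ⟨b0, fun h' => absurd h' h⟩
    choose bb hbb using hbb
    obtain ⟨y, hyY, hy⟩ := hY b0 Ω v r hr hvp a sp t n ha hsp z
    refine ⟨mk bb y, ?_, ?_⟩
    · refine Finset.mem_biUnion.mpr ⟨b0, Finset.mem_filter.mpr ⟨Finset.mem_univ _, hb0⟩,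
        Finset.mem_image.mpr ⟨(bb, y), Finset.mem_product.mpr ⟨Finset.mem_univ _, hyY⟩, rfl⟩⟩
    · intro σ S J τ hτ1 hτ2 j hj i e' he'
      have hτ : Ech U S J τ := ⟨hτ1, hτ2⟩
      obtain ⟨hd, τ0, hτ0, hl⟩ := hbb S J ⟨τ, hτ⟩
      obtain ⟨l, hlj, hli⟩ := hl j hj
      have hex : ∃ l, bb S J l = j := ⟨l, hlj⟩
      have hch : hex.choose = l := by
        apply PKE.DAT_.inj_of_dn g e b0 (bb S J) z hd
        rw [hex.choose_spec, hlj]
      have hmk : mk bb y (decide (σ a = a)) (decide (σ sp = sp)) S J j i =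
          y (decide (σ a = a)) (decide (σ sp = sp)) (Function.update (bb S J) l i) /
            y (decide (σ a = a)) (decide (σ sp = sp)) (bb S J) := by
        unfold mk
        rw [dif_pos hex, hch]
      rw [hmk]
      -- the entry as a quotient
      have hτi : τ j i = aeval z (PKE.dn e g b0 (Function.update (bb S J) l i)) /
          aeval z (PKE.dn e g b0 (bb S J)) := by
        rw [hτ.uniq h3 hτ0 j hj, hli i]
        rfl
      set d : IntermediateField.adjoin ℚ {a} := aeval z (PKE.dn e g b0 (bb S J)) with hddef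
      set x : IntermediateField.adjoin ℚ {a} :=
        aeval z (PKE.dn e g b0 (Function.update (bb S J) l i)) with hxdef
      have hx : x = τ j i * d := by
        rw [hτi, div_mul_cancel₀ _ hd]
      have hsp0 : sp ≠ 0 := by
        intro h
        rw [h] at hsp
        have : (p : Ω) = 0 := by rw [← hsp]; ring
        exact hp.ne_zero (by exact_mod_cast this)
      have hσsp : σ sp ≠ 0 := by
        intro h
        exact hsp0 (σ.injective (by rw [h, map_zero]))
      have hvsp : v (σ sp) ≠ 0 := (AbsoluteValue.ne_zero_iff v).2 hσsp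
      -- the size of the denominator
      obtain ⟨e1, he1⟩ : ∃ e1 : ℤ, v (σ (d : Ω)) = v (σ sp) ^ e1 := by
        have hna : IsNonarchimedean (v.comp σ.injective) := by
          intro x y
          change v (σ (x + y)) ≤ max (v (σ x)) (v (σ y))
          rw [map_add]
          exact hr.na (σ x) (σ y)
        have hvp' : (v.comp σ.injective) (p : Ω) < 1 := by
          change v (σ (p : Ω)) < 1
          rw [map_natCast]
          exact hvp
        exact h4 Ω p (v.comp σ.injective) hna hp hvp' a sp t n ha hsp (d : Ω) d.2 (by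
          intro h
          exact hd (by exact_mod_cast h))
      have hxv : v (σ (x : Ω)) = v (σ sp) ^ (e' + e1) := by
        rw [hx]
        push_cast
        rw [map_mul, map_mul, he', he1, zpow_add₀ hvsp]
      have hyx := hy σ (Function.update (bb S J) l i) (e' + e1) hxv
      have hyd := hy σ (bb S J) e1 he1
      rw [← hyx, ← hyd]
      set A : Ω := σ ((τ j i : Ω) * sp ^ (-e')) with hA
      set B : Ω := σ ((d : Ω) * sp ^ (-e1)) with hB
      have hAB : σ ((x : Ω) * sp ^ (-(e' + e1))) = A * B := by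
        rw [hA, hB, ← map_mul, hx]
        congr 1
        push_cast
        rw [neg_add, zpow_add₀ hsp0]
        ring
      have hvA : v A = 1 := by
        rw [hA, map_mul, map_mul, map_zpow₀, map_zpow₀, he', zpow_neg]
        exact mul_inv_cancel₀ (zpow_ne_zero _ hvsp)
      have hvB : v B = 1 := by
        rw [hB, map_mul, map_mul, map_zpow₀, map_zpow₀, he1, zpow_neg]
        exact mul_inv_cancel₀ (zpow_ne_zero _ hvsp)
      rw [hAB]
      exact red_div hr hvA hvB

end PKT
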