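import Pool.Agent.PKT.Targets

set_option autoImplicit false

/-! DEP: more polynomials than variables are algebraically dependent. -/

namespace PKT

open MvPolynomial

theorem p_DEP : T_DEP := by
  classical
  intro V M _ _ f A hA
  have hnot : ¬ AlgebraicIndependent ℤ (fun i : A => f i.1) := by
    intro h
    have h1 := h.cardinalMk_le_trdeg
    rw [MvPolynomial.trdeg_of_isDomain] at h1
    simp only [Cardinal.lift_id, Cardinal.mk_fintype, Fintype.card_coe] at h1
    have h2 : A.card ≤ Fintype.card V := by exact_mod_cast h1
    omega
  rw [algebraicIndependent_iff] at hnot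
  push Not at hnot
  obtain ⟨R', hR', hne⟩ := hnot
  refine ⟨rename Subtype.val R', ?_, ?_, ?_⟩
  · intro h0
    apply hne
    exact rename_injective _ Subtype.val_injective (by rw [h0, map_zero])
  · intro t ht
    have h1 := vars_rename (Subtype.val : A → M) R' ht
    rw [Finset.mem_image] at h1
    obtain ⟨a, -, rfl⟩ := h1
    exact a.2
  · rw [aeval_rename]
    exact hR'

end PKT
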