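import Pool.Agent.PKT.Targets
import Pool.Agent.PKS.Targets

/-!
# PKT-ELI3: elimination for an arbitrary index set
-/

set_option autoImplicit false

open MvPolynomial RD PKD PKS

namespace PKT

theorem p_ELI3 (h : PKS.T_ELI2) : T_ELI3 := by
  intro d n D ρ ι C _ _ _ _ q α0 hα
  let e : ι ≃ Fin (Fintype.card ι) := Fintype.equivFin ι
  obtain ⟨L, hL⟩ := h d n D (Fintype.card ι) ρ C (fun c => e (q c)) (fun i => α0 (e.symm i))
    (fun i => by rw [hα, Equiv.apply_symm_apply])
  refine ⟨L, fun k _ b u S J τ hb hu hSJ hcard => ?_⟩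
  obtain ⟨Φ, h0, hdeg, hev⟩ := hL k b u (S.map e.toEmbedding) (J.map e.toEmbedding)
    (fun i j => τ (e.symm i) (e.symm j)) hb hu
    ((Finset.disjoint_map e.toEmbedding).2 hSJ) (by rw [Finset.card_map, Finset.card_map]; exact hcard)
  refine ⟨Φ, h0, hdeg, fun c p s hh hs => hev c p s (fun i => hh (e.symm i)) ?_⟩
  obtain ⟨h1, h2, h3, h4, h5⟩ := hs
  have hmem : ∀ (T : Finset ι) (i : Fin (Fintype.card ι)),
      i ∈ T.map e.toEmbedding ↔ e.symm i ∈ T := by
    intro T i
    constructor
    · intro hi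
      obtain ⟨x, hx, rfl⟩ := Finset.mem_map.1 hi
      simpa using hx
    · intro hi
      exact Finset.mem_map.2 ⟨_, hi, by simp⟩
  have hsum : ∀ i : Fin (Fintype.card ι),
      (∑ α, (if e (q α) = i then c α * eval (Sum.elim p s) (u α) else 0)) =
      ∑ α, (if q α = e.symm i then c α * eval (Sum.elim p s) (u α) else 0) := by
    intro i
    refine Finset.sum_congr rfl fun α _ => ?_
    by_cases hq : q α = e.symm i
    · rw [if_pos hq, if_pos (by rw [hq, Equiv.apply_symm_apply])]
    · rw [if_neg hq, if_neg (fun h' => hq (by rw [← h', Equiv.symm_apply_apply]))]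
  refine ⟨h1, fun i => h2 (e.symm i), ?_, ?_, ?_⟩
  · intro i hi
    rw [hsum]
    exact h3 (e.symm i) ((hmem S i).1 hi)
  · intro i hi
    rw [hsum]
    exact h4 (e.symm i) (fun h' => hi ((hmem S i).2 h'))
  · intro j hj
    show hh (e.symm j) = ∑ i ∈ (S.map e.toEmbedding ∪ J.map e.toEmbedding)ᶜ,
      τ (e.symm j) (e.symm i) * hh (e.symm i)
    rw [h5 (e.symm j) ((hmem J j).1 hj)]
    refine Finset.sum_bij' (fun i _ => e i) (fun i _ => e.symm i) ?_ ?_ ?_ ?_ ?_
    · intro i hi
      rw [Finset.mem_compl, Finset.mem_union] at hi ⊢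
      rw [hmem, hmem, Equiv.symm_apply_apply]
      exact hi
    · intro i hi
      rw [Finset.mem_compl, Finset.mem_union] at hi ⊢
      rw [hmem, hmem] at hi
      exact hi
    · intro i _
      exact e.symm_apply_apply i
    · intro i _
      exact e.apply_symm_apply i
    · intro i _
      simp only [Equiv.symm_apply_apply]

end PKT
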