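import Pool.Agent.PKT.CRE3
import Pool.Agent.PKE.FIN

/-! The final assembly. -/

set_option autoImplicit false
set_option maxHeartbeats 4000000

namespace PKT

open MvPolynomial RD PKD PKS

/-- the theorem -/
def T_FIT : Prop := ∀ (K : Type) [Field K] [NumberField K] [DecidableEq (AlgebraicClosure K)]
    (m : ℕ) (g : Fin m → ℕ) (d n : ℕ) (w : Fin m → ℕ) (D : (Σ k, Fin (g k)) → ℕ),
    (∀ i, 1 ≤ D i ∧ w i.1 ≤ D i) →
    (∀ e : Fin m → ℕ, (∀ k, e k ≤ g k) → ∑ k, e k ≤ d + 1 →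
      2 * ∑ k, e k * (g k - e k) < Module.finrank ℚ K) →
    ∀ (om : Module.Basis (Fin (Module.finrank ℚ K)) ℚ K)
    (V : (Σ k, Fin (g k)) → Finset (Fin d)) (W : Fin n → Finset (Fin d)) (ρ : Fin n → ℕ)
    (b : Fin n → ℕ → MvPolynomial (Fin d) (AlgebraicClosure K))
    (I : Finset ((Σ k, Fin (g k)) × ((Fin d ⊕ Fin n) →₀ ℕ))),
    (∀ i, (i, 0) ∈ I ∧ ∀ j ∈ V i, (i, Finsupp.single (Sum.inl j) (D i)) ∈ I) →
    (∀ u ∈ I, u.2.degree ≤ D u.1 ∧ ∀ t ∈ u.2.support, Al W (V u.1) t) →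
    (∀ j l, l < ρ j → (b j l).totalDegree ≤ ρ j - l ∧ (b j l).vars ⊆ W j) →
    ∀ Δ : ℕ, 0 < Δ → ∀ ε : ℝ, 0 < ε → ∃ C : ℝ, ∀ H : ℕ, 1 ≤ H →
      (Nat.card {x : ℕ × ({u // u ∈ I} → Fin (Module.finrank ℚ K) → ℤ) //
        1 ≤ x.1 ∧ x.1 ≤ H ∧ (∀ u l, |x.2 u l| ≤ (H : ℤ)) ∧
        ∃ (A B : Fin m → MvPolynomial (Fin d ⊕ Fin n) (AlgebraicClosure K))
          (F : (Σ k, Fin (g k)) → MvPolynomial (Fin d ⊕ Fin n) (AlgebraicClosure K)),
          (∀ k, (A k).totalDegree ≤ 2 * w k ∧ (B k).totalDegree ≤ 3 * w k) ∧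
          (∀ i, (F i).totalDegree ≤ D i) ∧
          (∀ i t, t ∈ (A i.1).vars ∪ (B i.1).vars ∪ (F i).vars → Al W (V i) t) ∧
          (∀ t, (∀ k, ∃ j : ℕ, IsIntegral ℤ ((Δ : AlgebraicClosure K) ^ j * (A k).coeff t)) ∧
            (∀ k, ∃ j : ℕ, IsIntegral ℤ ((Δ : AlgebraicClosure K) ^ j * (B k).coeff t)) ∧
            (∀ i, ∃ j : ℕ, IsIntegral ℤ ((Δ : AlgebraicClosure K) ^ j * (F i).coeff t))) ∧
          ∃ (p : Fin d → AlgebraicClosure K) (s : Fin n → AlgebraicClosure K),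
            (∀ j, s j ^ ρ j + ∑ l ∈ Finset.range (ρ j), eval p (b j l) * s j ^ l = 0) ∧
            ∃ e : Fin m → ℕ, ∑ k, e k = d + 1 ∧
            ∃ P : (k : Fin m) → Fin (g k) →
                (curve 0 (eval (Sum.elim p s) (A k)) (eval (Sum.elim p s) (B k))).Point,
              (∀ k i, ∃ y h, P k i = WeierstrassCurve.Affine.Point.some
                (eval (Sum.elim p s) (F ⟨k, i⟩) + ∑ u : {u // u ∈ I}, if u.1.1 = ⟨k, i⟩ then
                  algebraMap K (AlgebraicClosure K) (∑ l, (x.2 u l : ℚ) • om l) /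
                    (x.1 : AlgebraicClosure K) *
                  ∏ t, Sum.elim p s t ^ (u.1.2 t) else 0) y h) ∧
              ∀ k, IntRel _ (e k) (P k) ∨ CMRel _ (e k) (P k)} : ℝ) ≤
        C * (H : ℝ) ^ (((Module.finrank ℚ K * I.card : ℕ) : ℝ) + ε)

theorem eval_fpol {Ω ι σ : Type} [Field Ω] [Fintype σ] [DecidableEq ι] (I : Finset (ι × (σ →₀ ℕ)))
    (F : ι → MvPolynomial σ Ω) (c : {u // u ∈ I} → Ω) (z : σ → Ω) (i : ι) :
    eval z (fpol I F c i) = eval z (F i) + ∑ u : {u // u ∈ I}, if u.1.1 = i then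
        c u * ∏ t, z t ^ (u.1.2 t) else 0 := by
  classical
  unfold fpol
  rw [map_add, map_sum]
  congr 1
  refine Finset.sum_congr rfl fun u _ => ?_
  by_cases h : u.1.1 = i
  · rw [if_pos h, if_pos h, eval_monomial, Finsupp.prod_fintype _ _ (fun t => pow_zero _)]
  · rw [if_neg h, if_neg h, map_zero]

theorem bad3_iff {Ω : Type} [Field Ω] [DecidableEq Ω] {d n m : ℕ} {g : Fin m → ℕ}
    (ρ : Fin n → ℕ) (b : Fin n → ℕ → MvPolynomial (Fin d) Ω)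
    (A B : Fin m → MvPolynomial (Fin d ⊕ Fin n) Ω)
    (I : Finset ((Σ k, Fin (g k)) × ((Fin d ⊕ Fin n) →₀ ℕ)))
    (F : (Σ k, Fin (g k)) → MvPolynomial (Fin d ⊕ Fin n) Ω) (c : {u // u ∈ I} → Ω) :
    Bad3 ρ b A B (fpol I F c) ↔
      ∃ (p : Fin d → Ω) (s : Fin n → Ω),
          (∀ j, s j ^ ρ j + ∑ l ∈ Finset.range (ρ j), eval p (b j l) * s j ^ l = 0) ∧
          ∃ e : Fin m → ℕ, ∑ k, e k = d + 1 ∧
          ∃ P : (k : Fin m) → Fin (g k) →
              (curve 0 (eval (Sum.elim p s) (A k)) (eval (Sum.elim p s) (B k))).Point,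
            (∀ k i, ∃ y h, P k i = WeierstrassCurve.Affine.Point.some
              (eval (Sum.elim p s) (F ⟨k, i⟩) + ∑ u : {u // u ∈ I}, if u.1.1 = ⟨k, i⟩ then
                c u * ∏ t, Sum.elim p s t ^ (u.1.2 t) else 0) y h) ∧
            ∀ k, IntRel _ (e k) (P k) ∨ CMRel _ (e k) (P k) := by
  unfold Bad3
  constructor
  · rintro ⟨p, s, h1, e, he, P, h2, h3⟩
    exact ⟨p, s, h1, e, he, P,
      fun k i => (some_congr (eval_fpol I F c (Sum.elim p s) ⟨k, i⟩) (P k i)).1 (h2 k i), h3⟩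
  · rintro ⟨p, s, h1, e, he, P, h2, h3⟩
    exact ⟨p, s, h1, e, he, P,
      fun k i => (some_congr (eval_fpol I F c (Sum.elim p s) ⟨k, i⟩) (P k i)).2 (h2 k i), h3⟩

theorem p_FIT (hCRT : T_CRT) (hSV3 : PKE.T_SV3) : T_FIT := by
  classical
  intro K _ _ _ m g d n w D hD hK om V W ρ b I hI hIs hb Δ hΔ ε hε
  obtain ⟨C, p0, hC⟩ := hCRT K (AlgebraicClosure K) m g d n w D hD hK om V W ρ b I hI hIs hb Δ hΔ
  -- the property
  let BadU : ℕ → ({u // u ∈ I} → Fin (Module.finrank ℚ K) → ℤ) → Prop :=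
    fun β a => ∃ (A B : Fin m → MvPolynomial (Fin d ⊕ Fin n) (AlgebraicClosure K))
          (F : (Σ k, Fin (g k)) → MvPolynomial (Fin d ⊕ Fin n) (AlgebraicClosure K)),
          (∀ k, (A k).totalDegree ≤ 2 * w k ∧ (B k).totalDegree ≤ 3 * w k) ∧
          (∀ i, (F i).totalDegree ≤ D i) ∧
          (∀ i t, t ∈ (A i.1).vars ∪ (B i.1).vars ∪ (F i).vars → Al W (V i) t) ∧
          (∀ t, (∀ k, PKE.SI Δ ((A k).coeff t)) ∧ (∀ k, PKE.SI Δ ((B k).coeff t)) ∧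
            (∀ i, PKE.SI Δ ((F i).coeff t))) ∧
          Bad3 ρ b A B (fpol I F
            fun u => algebraMap K (AlgebraicClosure K) (∑ l, (a u l : ℚ) • om l) /
              (β : AlgebraicClosure K))
  have hex : ∀ p : ℕ, ∃ Bp : Finset ({u // u ∈ I} → Fin (Module.finrank ℚ K) → ZMod p),
      p0 ≤ p → p.Prime →
      Bp.card * p ≤ C * p ^ (Module.finrank ℚ K * Fintype.card {u // u ∈ I}) ∧
      ∀ (β : ℕ) (a : {u // u ∈ I} → Fin (Module.finrank ℚ K) → ℤ),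
        0 < β → p ∣ β → BadU β a → (fun u l => (a u l : ZMod p)) ∈ Bp := by
    intro p
    by_cases h : p0 ≤ p ∧ p.Prime
    · obtain ⟨Bp, h1, h2⟩ := hC p h.1 h.2
      refine ⟨Bp, fun _ _ => ⟨h1, fun β a hβ hpβ hbad => ?_⟩⟩
      obtain ⟨A, B, F, hAB, hF, hsupp, hSI, hbad⟩ := hbad
      exact h2 β a hβ hpβ A B F
        ⟨fun κ => ⟨(hAB κ).1, fun i t ht => hsupp ⟨κ, i⟩ t (by simp [ht])⟩,
          fun κ => ⟨(hAB κ).2, fun i t ht => hsupp ⟨κ, i⟩ t (by simp [ht])⟩,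
          fun i => ⟨hF i, fun t ht => hsupp i t (by simp [ht])⟩,
          fun κ t => ⟨(hSI t).1 κ, (hSI t).2.1 κ⟩, fun i t => (hSI t).2.2 i⟩ hbad
    · exact ⟨∅, fun h1 h2 => absurd ⟨h1, h2⟩ h⟩
  choose Bp hBp using hex
  let κ := {u // u ∈ I} × Fin (Module.finrank ℚ K)
  have hcard : Fintype.card κ = Module.finrank ℚ K * Fintype.card {u // u ∈ I} := by
    simp only [κ, Fintype.card_prod, Fintype.card_fin]
    ring
  have hcard2 : Fintype.card κ = Module.finrank ℚ K * I.card := by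
    rw [hcard, Fintype.card_coe]
  obtain ⟨C', h1⟩ := hSV3 κ C p0 (fun p => (Bp p).map
      (Equiv.curry {u // u ∈ I} (Fin (Module.finrank ℚ K)) (ZMod p)).symm.toEmbedding)
    (fun β a => BadU β fun u l => a (u, l))
    (fun p hp hpp => by
      rw [Finset.card_map, hcard]
      exact (hBp p hp hpp).1)
    (fun p hp hpp β a h2 h3 h4 => by
      have h5 := (hBp p hp hpp).2 β (fun u l => a (u, l)) h2 h3 h4
      rw [Finset.mem_map]
      refine ⟨_, h5, ?_⟩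
      funext x
      rfl) ε hε
  rw [hcard2] at h1
  refine ⟨C', fun H hH => le_trans (le_of_eq ?_) (h1 H hH)⟩
  congr 1
  refine (Nat.card_congr (Equiv.subtypeEquiv ((Equiv.refl ℕ).prodCongr
    (Equiv.curry {u // u ∈ I} (Fin (Module.finrank ℚ K)) ℤ)) fun x => ?_)).symm
  simp only [Equiv.prodCongr_apply, Prod.map_fst, Prod.map_snd, Equiv.refl_apply, Equiv.curry_apply,
    BadU]
  constructor
  · rintro ⟨a1, a2, a3, A, B, F, b1, b2, b3, b4, b5⟩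
    exact ⟨a1, a2, fun u l => a3 (u, l), A, B, F, b1, b2, b3, b4,
      (bad3_iff ρ b A B I F _).1 b5⟩
  · rintro ⟨a1, a2, a3, A, B, F, b1, b2, b3, b4, b5⟩
    exact ⟨a1, a2, fun i => a3 i.1 i.2, A, B, F, b1, b2, b3, b4,
      (bad3_iff ρ b A B I F _).2 b5⟩

end PKT
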