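import Pool.Agent.PKT.Targets
import Pool.Agent.PKE.FRB
import Pool.Agent.PKS.VAL
import Pool.Agent.PKD.GRP

set_option autoImplicit false

/-!
FRB2: either all the leading coefficients of all the embeddings of a quadratic field are in the
prime field, or those of conjugate embeddings are Frobenius conjugate up to the sign
-/

namespace PKT

open MvPolynomial RD PKD PKS

namespace FRB2_

variable {Ω k : Type} [Field Ω] [CharZero Ω] [Field k] {v : AbsoluteValue Ω ℝ} {r : Ω → k}

omit [CharZero Ω] in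
theorem val_of (na : IsNonarchimedean v) {y W : Ω} (hW : v W = 1) (hy : v (y - W) < 1) :
    v y = 1 := by
  have h1 := na_eq na (x := W) (y := y - W) (by rw [hW]; exact hy)
  rw [add_sub_cancel] at h1
  rw [h1, hW]

/-- a dominant term whose square is rational -/
theorem core (hr : Red v r) {p : ℕ} (hp : p.Prime) (hvp : v (p : Ω) < 1) (y y' W W' : Ω) (ρ : ℚ)
    (hW : v W = 1) (hy : v (y - W) < 1) (hy' : v (y' - W') < 1) (hWW : W' = W ∨ W' = -W)
    (hρ : W ^ 2 = (ρ : Ω)) : v y' = 1 ∧ (r y' = r y ^ p ∨ r y' = - r y ^ p) := by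
  have hW' : v W' = 1 := by
    rcases hWW with h | h
    · rw [h, hW]
    · rw [h, v.map_neg, hW]
  have e1 : v y = 1 := val_of hr.na hW hy
  have e2 : v y' = 1 := val_of hr.na hW' hy'
  have r1 : r y = r W := (hr.eq_iff e1.le hW.le).2 hy
  have r2 : r y' = r W' := (hr.eq_iff e2.le hW'.le).2 hy'
  have r3 : (r W ^ p) ^ 2 = r W ^ 2 := by
    have h1 : r W ^ 2 = r (ρ : Ω) := by rw [← hr.pow hW.le, hρ]
    have h2 : v (ρ : Ω) ≤ 1 := by rw [← hρ, v.map_pow, hW, one_pow]
    rw [← pow_mul, mul_comm p 2, pow_mul, h1, PKE.FRB_.rat_fix hr hp hvp ρ h2]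
  have r4 : r W = r W ^ p ∨ r W = - r W ^ p := sq_eq_sq_iff_eq_or_eq_neg.1 r3.symm
  refine ⟨e2, ?_⟩
  rw [r1, r2]
  rcases hWW with h | h
  · rw [h]; exact r4
  · rw [h, hr.neg hW.le]
    rcases r4 with h | h
    · exact Or.inr (neg_inj.2 h)
    · exact Or.inl (neg_eq_iff_eq_neg.2 h)

omit [CharZero Ω] in
theorem zpow_pm {z z' : Ω} (h : z' = z ∨ z' = -z) (e : ℤ) : z' ^ e = z ^ e ∨ z' ^ e = -z ^ e := by
  rcases h with h | h
  · exact Or.inl (by rw [h])
  · rcases Int.even_or_odd e with he | he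
    · exact Or.inl (by rw [h, he.neg_zpow])
    · exact Or.inr (by rw [h, he.neg_zpow])

end FRB2_

open FRB2_ in
theorem p_FRB2 (h : PKE.T_FRB) : T_FRB2 := by
  intro Ω k _ _ _ p v r hr hp hp3 hvp a sp t n ha hsp
  have hpΩ : (p : Ω) ≠ 0 := Nat.cast_ne_zero.2 hp.ne_zero
  have hsp0 : sp ≠ 0 := by
    rintro rfl
    rw [zero_pow two_ne_zero] at hsp
    exact hpΩ hsp.symm
  obtain ⟨u, hu⟩ : ∃ u, u = v sp := ⟨_, rfl⟩
  have hu0 : 0 < u := hu ▸ v.pos hsp0
  have hu2 : u ^ 2 = v (p : Ω) := by rw [hu, ← v.map_pow, hsp]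
  have hu1 : u < 1 := by
    by_contra hc
    push Not at hc
    have : 1 ≤ u ^ 2 := one_le_pow₀ hc
    rw [hu2] at this
    linarith
  have hσsq : ∀ σ : Ω →+* Ω, (σ sp) ^ 2 = (p : Ω) := fun σ => by
    rw [← map_pow, hsp, map_natCast]
  have hσu : ∀ σ : Ω →+* Ω, v (σ sp) = u := fun σ => by
    have h1 : v (σ sp) ^ 2 = u ^ 2 := by rw [← v.map_pow, hσsq, hu2]
    exact (pow_left_inj₀ (v.nonneg _) hu0.le two_ne_zero).1 h1
  have hinj : ∀ i j : ℤ, u ^ i = u ^ j → i = j := fun i j hij =>
    zpow_right_injective₀ hu0 hu1.ne hij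
  -- values of integers
  have hint : ∀ z : ℤ, z ≠ 0 → ∃ j : ℤ, v (z : Ω) = u ^ (2 * j) := fun z hz => by
    obtain ⟨e, he⟩ := PKS.VAL_.int_val hr.na hp hvp hz
    refine ⟨e, ?_⟩
    rw [he, ← hu2, zpow_mul]
    norm_cast
  have hσd : ∀ σ : Ω →+* Ω, (2 * σ a - t) ^ 2 = ((t ^ 2 - 4 * n : ℤ) : Ω) := fun σ => by
    have := GRP_.sigma_root σ a t n ha
    push_cast
    linear_combination 4 * this
  have hrep : ∀ x ∈ IntermediateField.adjoin ℚ {a}, ∃ q A s : ℤ, q ≠ 0 ∧ ∀ σ : Ω →+* Ω,
      (q : Ω) * σ x = A + s * (2 * σ a - t) := by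
    intro x hx
    obtain ⟨q, c, s, hq, hqx⟩ := RD.p_QFD Ω a t n ha x hx
    refine ⟨2 * q, 2 * c + s * t, s, by omega, fun σ => ?_⟩
    have e1 := congrArg σ hqx
    rw [map_mul, map_add, map_mul, map_intCast, map_intCast, map_intCast] at e1
    push_cast
    linear_combination 2 * e1
  by_cases hO : ∃ m : ℤ, v ((t ^ 2 - 4 * n : ℤ) : Ω) = u ^ (2 * (2 * m + 1))
  · -- ramified case
    right
    obtain ⟨m, hm⟩ := hO
    intro σ σ' hne x hx e hve
    obtain ⟨q, A, s, hq, hqx⟩ := hrep x hx
    have hqΩ : (q : Ω) ≠ 0 := Int.cast_ne_zero.2 hq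
    have hd' : 2 * σ' a - t = -(2 * σ a - t) := by
      rcases GRP_.root_cases (σ a) (σ' a) t n (GRP_.sigma_root σ a t n ha)
        (GRP_.sigma_root σ' a t n ha) with h1 | h1
      · exact absurd h1.symm hne
      · rw [h1]; ring
    have hx1 := hqx σ
    have hx2 := hqx σ'
    rw [hd'] at hx2
    have hd2 := hσd σ
    set d := 2 * σ a - (t : Ω) with hd
    have hvd : v d = u ^ (2 * m + 1) := by
      have h1 : v d ^ 2 = (u ^ (2 * m + 1)) ^ 2 := by
        rw [← v.map_pow, hd2, hm, mul_comm 2 (2 * m + 1), zpow_mul]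
        norm_cast
      exact (pow_left_inj₀ (v.nonneg _) (zpow_pos hu0 _).le two_ne_zero).1 h1
    have hκκ := zpow_pm (z := σ sp) (z' := σ' sp)
      (sq_eq_sq_iff_eq_or_eq_neg.1 ((hσsq σ').trans (hσsq σ).symm)) (-e)
    set κ := (σ sp) ^ (-e) / (q : Ω) with hκ
    set κ' := (σ' sp) ^ (-e) / (q : Ω) with hκ'
    have hpm : κ' = κ ∨ κ' = -κ := by
      rcases hκκ with h1 | h1
      · exact Or.inl (by rw [hκ', hκ, h1])
      · exact Or.inr (by rw [hκ', hκ, h1, neg_div])
    have hκv : v κ' = v κ := by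
      rcases hpm with h1 | h1
      · rw [h1]
      · rw [h1, v.map_neg]
    have hκ2 : κ ^ 2 = (((p : ℚ) ^ (-e) / (q : ℚ) ^ 2 : ℚ) : Ω) := by
      have h1 : ((σ sp) ^ (-e)) ^ 2 = (p : Ω) ^ (-e) := by
        rw [← hσsq σ, ← zpow_natCast, ← zpow_natCast, ← zpow_mul, ← zpow_mul, mul_comm]
      rw [hκ, div_pow, h1]
      push_cast
      rfl
    have hy : σ (x * sp ^ (-e)) = (A + s * d) * κ := by
      rw [map_mul, map_zpow₀, ← hx1, hκ]
      field_simp
    have hy' : σ' (x * sp ^ (-e)) = (A + s * -d) * κ' := by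
      rw [map_mul, map_zpow₀, ← hx2, hκ']
      field_simp
    have hvy : v (σ (x * sp ^ (-e))) = 1 := by
      rw [map_mul, map_zpow₀, v.map_mul, map_zpow₀, hve, ← zpow_add₀ (by rw [hσu]; exact hu0.ne'),
        add_neg_cancel, zpow_zero]
    have hκ0 : 0 < v κ := by
      rcases (v.nonneg κ).lt_or_eq with h1 | h1
      · exact h1
      · exfalso
        rw [hy, v.map_mul, ← h1, mul_zero] at hvy
        exact zero_ne_one hvy
    have main : v (σ' (x * sp ^ (-e))) = 1 ∧
        (r (σ' (x * sp ^ (-e))) = r (σ (x * sp ^ (-e))) ^ p ∨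
          r (σ' (x * sp ^ (-e))) = - r (σ (x * sp ^ (-e))) ^ p) := by
      rcases lt_trichotomy (v ((s : Ω) * d)) (v (A : Ω)) with hlt | heq | hgt
      · have hW : v ((A : Ω) * κ) = 1 := by
          rw [hy, v.map_mul, na_eq hr.na hlt, ← v.map_mul] at hvy
          exact hvy
        refine core hr hp hvp _ _ ((A : Ω) * κ) ((A : Ω) * κ')
          ((A : ℚ) ^ 2 * ((p : ℚ) ^ (-e) / (q : ℚ) ^ 2)) hW ?_ ?_ ?_ ?_
        · rw [hy]
          have h1 : ((A : Ω) + s * d) * κ - A * κ = s * d * κ := by ring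
          rw [h1, v.map_mul, ← hW, v.map_mul (A : Ω)]
          exact mul_lt_mul_of_pos_right hlt hκ0
        · rw [hy']
          have h1 : ((A : Ω) + s * -d) * κ' - A * κ' = -(s * d * κ') := by ring
          rw [h1, v.map_neg, v.map_mul, ← hW, v.map_mul (A : Ω), hκv]
          exact mul_lt_mul_of_pos_right hlt hκ0
        · rcases hpm with h1 | h1
          · exact Or.inl (by rw [h1])
          · exact Or.inr (by rw [h1]; ring)
        · rw [mul_pow, hκ2]
          push_cast
          rfl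
      · exfalso
        by_cases hA : A = 0
        · rw [hA, Int.cast_zero, v.map_zero] at heq
          have h1 := (v.eq_zero).1 heq
          rw [hy, h1, hA, Int.cast_zero, add_zero, zero_mul, v.map_zero] at hvy
          exact zero_ne_one hvy
        · obtain ⟨i, hi⟩ := hint A hA
          have hs : s ≠ 0 := by
            rintro rfl
            rw [Int.cast_zero, zero_mul, v.map_zero, hi] at heq
            exact (zpow_pos hu0 _).ne heq
          obtain ⟨j, hj⟩ := hint s hs
          rw [v.map_mul, hi, hj, hvd, ← zpow_add₀ hu0.ne'] at heq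
          have := hinj _ _ heq
          omega
      · have hW : v ((s : Ω) * d * κ) = 1 := by
          rw [hy, v.map_mul, add_comm, na_eq hr.na hgt, ← v.map_mul] at hvy
          exact hvy
        refine core hr hp hvp _ _ ((s : Ω) * d * κ) (-((s : Ω) * d * κ'))
          ((s : ℚ) ^ 2 * ((t ^ 2 - 4 * n : ℤ) : ℚ) * ((p : ℚ) ^ (-e) / (q : ℚ) ^ 2)) hW ?_ ?_ ?_ ?_
        · rw [hy]
          have h1 : ((A : Ω) + s * d) * κ - s * d * κ = A * κ := by ring
          rw [h1, v.map_mul, ← hW, v.map_mul (s * d)]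
          exact mul_lt_mul_of_pos_right hgt hκ0
        · rw [hy']
          have h1 : ((A : Ω) + s * -d) * κ' - -(s * d * κ') = A * κ' := by ring
          rw [h1, v.map_mul, ← hW, v.map_mul (s * d), hκv]
          exact mul_lt_mul_of_pos_right hgt hκ0
        · rcases hpm with h1 | h1
          · exact Or.inr (by rw [h1])
          · exact Or.inl (by rw [h1]; ring)
        · rw [mul_pow, mul_pow, hκ2, hd2]
          push_cast
          rfl
    refine ⟨?_, main.2⟩
    have h1 := main.1
    rw [map_mul, map_zpow₀, v.map_mul, map_zpow₀, zpow_neg] at h1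
    have h2 : v (σ' sp) ^ e ≠ 0 := zpow_ne_zero _ (by rw [hσu]; exact hu0.ne')
    field_simp at h1
    exact h1
  · -- all values are even powers
    have hv2 : v (2 : Ω) = 1 := by
      have h1 : IsCoprime (2 : ℤ) (p : ℤ) := by
        have h2 : Nat.Coprime 2 p := by
          rw [Nat.coprime_primes Nat.prime_two hp]
          omega
        exact_mod_cast Nat.isCoprime_iff_coprime.2 h2
      have h3 := na_coprime hr.na hvp h1
      exact_mod_cast h3
    have hev : ∀ σ : Ω →+* Ω, ∀ x ∈ IntermediateField.adjoin ℚ {a}, x ≠ 0 →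
        ∃ j : ℤ, v (σ x) = u ^ (2 * j) := by
      intro σ x hx hx0
      obtain ⟨q, A, s, hq, hqx⟩ := hrep x hx
      have hqΩ : (q : Ω) ≠ 0 := Int.cast_ne_zero.2 hq
      have hx1 := hqx σ
      have hd2 := hσd σ
      set d := 2 * σ a - (t : Ω) with hd
      obtain ⟨iq, hiq⟩ := hint q hq
      have hσx0 : σ x ≠ 0 := by
        rw [Ne, map_eq_zero]
        exact hx0
      have hy0 : (A : Ω) + s * d ≠ 0 := by
        rw [← hx1]
        exact mul_ne_zero hqΩ hσx0
      suffices hs : ∃ j : ℤ, v ((A : Ω) + s * d) = u ^ (2 * j) by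
        obtain ⟨j, hj⟩ := hs
        rw [← hx1, v.map_mul, hiq] at hj
        refine ⟨j - iq, ?_⟩
        have h1 : 2 * (j - iq) = 2 * j - 2 * iq := by ring
        rw [h1, zpow_sub₀ hu0.ne', eq_div_iff (zpow_ne_zero _ hu0.ne'), mul_comm]
        exact hj
      -- the value of `s d`
      have hsd : (s : Ω) * d ≠ 0 → ∃ j : ℤ, v ((s : Ω) * d) = u ^ (2 * j) := by
        intro h0
        have hs0 : s ≠ 0 := by
          rintro rfl
          rw [Int.cast_zero, zero_mul] at h0
          exact h0 rfl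
        have hd0 : d ≠ 0 := right_ne_zero_of_mul h0
        have hD0 : (t ^ 2 - 4 * n : ℤ) ≠ 0 := by
          intro h1
          rw [h1, Int.cast_zero] at hd2
          exact hd0 (pow_eq_zero_iff two_ne_zero |>.1 hd2)
        obtain ⟨j, hj⟩ := hint _ hD0
        obtain ⟨i, hi⟩ := hint s hs0
        rcases Int.even_or_odd' j with ⟨j', h1 | h1⟩
        · have hvd : v d = u ^ (2 * j') := by
            have h2 : v d ^ 2 = (u ^ (2 * j')) ^ 2 := by
              rw [← v.map_pow, hd2, hj, h1, mul_comm 2 (2 * j'), zpow_mul u (2 * j') 2]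
              norm_cast
            exact (pow_left_inj₀ (v.nonneg _) (zpow_pos hu0 _).le two_ne_zero).1 h2
          refine ⟨i + j', ?_⟩
          rw [v.map_mul, hi, hvd, ← zpow_add₀ hu0.ne']
          congr 1
          ring
        · exact absurd ⟨j', by rw [hj, h1]⟩ hO
      rcases lt_trichotomy (v ((s : Ω) * d)) (v (A : Ω)) with hlt | heq | hgt
      · rw [na_eq hr.na hlt]
        refine hint A ?_
        rintro rfl
        rw [Int.cast_zero, v.map_zero] at hlt
        exact absurd hlt (not_lt.2 (v.nonneg _))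
      · have hA : A ≠ 0 := by
          rintro rfl
          rw [Int.cast_zero, v.map_zero] at heq
          apply hy0
          rw [(v.eq_zero).1 heq, Int.cast_zero, add_zero]
        obtain ⟨iA, hiA⟩ := hint A hA
        have hle : v ((A : Ω) + s * d) ≤ v (A : Ω) := by
          refine (hr.na _ _).trans (max_le le_rfl ?_)
          rw [heq]
        rcases hle.lt_or_eq with h1 | h1
        · have h2 : v ((A : Ω) - s * d) = v (A : Ω) := by
            have h3 : (A : Ω) - s * d = 2 * A + -(A + s * d) := by ring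
            have h4 : v (2 * (A : Ω)) = v (A : Ω) := by rw [v.map_mul, hv2, one_mul]
            rw [h3, na_eq hr.na (by rw [v.map_neg, h4]; exact h1), h4]
          have hN : ((A : Ω) + s * d) * (A - s * d) =
              ((A ^ 2 - s ^ 2 * (t ^ 2 - 4 * n) : ℤ) : Ω) := by
            push_cast at hd2 ⊢
            linear_combination (-(s : Ω) ^ 2) * hd2
          have hN0 : (A ^ 2 - s ^ 2 * (t ^ 2 - 4 * n) : ℤ) ≠ 0 := by
            intro h3
            rw [h3, Int.cast_zero] at hN
            rcases mul_eq_zero.1 hN with h4 | h4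
            · exact hy0 h4
            · rw [h4, v.map_zero, hiA] at h2
              exact (zpow_pos hu0 _).ne h2
          obtain ⟨j, hj⟩ := hint _ hN0
          rw [← hN, v.map_mul, h2, hiA] at hj
          refine ⟨j - iA, ?_⟩
          have h3 : 2 * (j - iA) = 2 * j - 2 * iA := by ring
          rw [h3, zpow_sub₀ hu0.ne', eq_div_iff (zpow_ne_zero _ hu0.ne')]
          exact hj
        · exact ⟨iA, by rw [h1, hiA]⟩
      · rw [add_comm, na_eq hr.na hgt]
        refine hsd ?_
        intro h0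
        rw [h0, v.map_zero] at hgt
        exact absurd hgt (not_lt.2 (v.nonneg _))
    -- the power of `√p` is rational
    have hmem : ∀ σ : Ω →+* Ω, ∀ x ∈ IntermediateField.adjoin ℚ {a}, ∀ e : ℤ,
        v (σ x) = v (σ sp) ^ e → x * sp ^ (-e) ∈ IntermediateField.adjoin ℚ {a} ∧
          v (σ (x * sp ^ (-e))) = 1 := by
      intro σ x hx e hve
      have hx0 : x ≠ 0 := by
        rintro rfl
        rw [map_zero, v.map_zero, hσu] at hve
        exact (zpow_pos hu0 _).ne hve
      obtain ⟨j, hj⟩ := hev σ x hx hx0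
      refine ⟨?_, ?_⟩
      · rw [hσu, hj] at hve
        have he := hinj _ _ hve
        have h1 : sp ^ (-e) = (p : Ω) ^ (-j) := by
          rw [← he, ← hsp, ← zpow_natCast, ← zpow_mul]
          congr 1
          push_cast
          ring
        rw [h1]
        exact mul_mem hx (zpow_mem (natCast_mem _ p) _)
      · rw [map_mul, map_zpow₀, v.map_mul, map_zpow₀, hve,
          ← zpow_add₀ (by rw [hσu]; exact hu0.ne'), add_neg_cancel, zpow_zero]
    rcases h Ω k p v r hr hp hvp a t n ha with h1 | h1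
    · left
      intro σ x hx e hve
      obtain ⟨h2, h3⟩ := hmem σ x hx e hve
      exact h1 σ _ h2 h3.le
    · right
      intro σ σ' hne x hx e hve
      obtain ⟨h2, h3⟩ := hmem σ x hx e hve
      obtain ⟨h4, h5⟩ := h1 σ σ' hne _ h2 h3.le
      refine ⟨?_, Or.inl h5⟩
      have h6 : v (σ' (x * sp ^ (-e))) = 1 := by
        rcases h4.lt_or_eq with h7 | h7
        · exfalso
          rw [(hr.ker _ h4).2 h7] at h5
          have h8 : r (σ (x * sp ^ (-e))) = 0 := (pow_eq_zero_iff hp.ne_zero).1 h5.symm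
          have h9 := (hr.ker _ h3.le).1 h8
          rw [h3] at h9
          exact lt_irrefl _ h9
        · exact h7
      rw [map_mul, map_zpow₀, v.map_mul, map_zpow₀, zpow_neg] at h6
      have h7 : v (σ' sp) ^ e ≠ 0 := zpow_ne_zero _ (by rw [hσu]; exact hu0.ne')
      field_simp at h6
      exact h6

end PKT
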