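import Mathlib
import Pool.Agent.RD.Defs
import Pool.Agent.PKD.Defs
import Pool.Agent.PKE.Defs
import Pool.Agent.PKS.Defs

/-!
Definitions for project PKT (MP_28d749_ag): the strong form of project PKS (products and fibre
products of multisections of several elliptic schemes over different bases, arbitrary multidegrees,
the condition on the number field is `[K : ℚ] > 2 ∑ e_k (g_k - e_k)`).
-/

set_option autoImplicit false

namespace PKT

open MvPolynomial RD PKD PKS

/-- the monomial `α` over the residue field, for a function with support `V` and of degree `D` -/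
noncomputable def utf {d n : ℕ} (k : Type) [Field k] (W : Fin n → Finset (Fin d)) (T : Typ d)
    (V : Finset (Fin d)) (D : ℕ) (α : (Fin d ⊕ Fin n) →₀ ℕ) : MvPolynomial (Fin d ⊕ Fin n) k :=
  open Classical in
  match T V with
  | none => monomial α 1
  | some Y => if α.degree = D ∧
      ∀ t ∈ α.support, Sum.elim (fun m => m ∈ Y) (fun j => ¬ Disjoint (W j) Y) t
    then monomial α 1 else 0

/-- the exponent of the pivot monomial: `1`, or `p_m ^ D` for some `m` in the set of maximal size -/
noncomputable def pvf {d : ℕ} (n D : ℕ) (T : Typ d) (V : Finset (Fin d)) : (Fin d ⊕ Fin n) →₀ ℕ :=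
  open Classical in
  match T V with
  | none => 0
  | some Y => if h : Y.Nonempty then Finsupp.single (Sum.inl h.choose) D else 0

/-- the system over the residue field; `C` is the set of the coefficients, the coefficient `α`
belongs to the function number `q α` (`PKS.Sys` for an arbitrary index set) -/
def Sys3 {k : Type} [Field k] {d n : ℕ} {ι C : Type} [Fintype ι] [DecidableEq ι] [Fintype C]
    (ρ : Fin n → ℕ) (b : Fin n → ℕ → MvPolynomial (Fin d) k) (q : C → ι)
    (u : C → MvPolynomial (Fin d ⊕ Fin n) k) (α0 : ι → C)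
    (S J : Finset ι) (τ : ι → ι → k) (c : C → k)
    (p : Fin d → k) (s : Fin n → k) (h : ι → k) : Prop :=
  OnBase ρ b p s ∧ (∀ i, eval (Sum.elim p s) (u (α0 i)) ≠ 0) ∧
  (∀ i ∈ S, ∑ α, (if q α = i then c α * eval (Sum.elim p s) (u α) else 0) = 0) ∧
  (∀ i, i ∉ S → h i ^ 2 * ∑ α, (if q α = i then c α * eval (Sum.elim p s) (u α) else 0) = 1) ∧
  (∀ j ∈ J, h j = ∑ i ∈ (S ∪ J)ᶜ, τ j i * h i)

/-- the part prime to `p` of the integer `q` -/
def upart (p : ℕ) (q : ℤ) : ℤ := q / (p : ℤ) ^ (padicValInt p q)

/-- `y` is the leading coefficient of `x` with respect to the powers of `sp` -/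
def LC {Ω k : Type} [Field Ω] [Field k] (v : AbsoluteValue Ω ℝ) (r : Ω → k) (sp x : Ω) (y : k) :
    Prop :=
  (x = 0 ∧ y = 0) ∨ ∃ e : ℤ, v x = v sp ^ e ∧ y = r (x * sp ^ (-e))

/-- leading coefficients of the echelon bases: to a set `S` of zero coordinates and a set `J` of
pivots a matrix -/
abbrev Dt (g : ℕ) (k : Type) : Type := Finset (Fin g) → Finset (Fin g) → Fin g → Fin g → k

end PKT
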