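import Mathlib
import Pool.Agent.PKT.Defs
import Pool.Agent.PKS.Targets
import Pool.Agent.PKE.Targets

/-!
Targets of project PKT. Each job proves one of them in its own file `Pool/Agent/PKT/<NAME>.lean` as
`theorem p_<NAME> (hypotheses...) : T_<NAME>`. Proofs: `Pool/Agent/PKT/Blueprint.lean.txt`.
-/

set_option autoImplicit false

namespace PKT

open MvPolynomial RD PKD PKS

/-! ### Block 1: one place -/

/-- SEC: a multiplicative section of the absolute value of an algebraically closed field -/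
def T_SEC : Prop := ∀ (Ω : Type) [Field Ω] [IsAlgClosed Ω] (v : AbsoluteValue Ω ℝ) (sp : Ω),
  sp ≠ 0 → v sp < 1 → ∃ s : ℝ → Ω, s (v sp) = sp ∧ (∀ y : Ω, y ≠ 0 → v (s (v y)) = v y) ∧
    ∀ y z : Ω, y ≠ 0 → z ≠ 0 → s (v y * v z) = s (v y) * s (v z)

/-- BSE3 (from PKS.T_BSE): the residues of a point of the base; polynomials instead of sums over
`MonS` -/
def T_BSE3 : Prop := ∀ (Ω k : Type) [Field Ω] [Field k] (v : AbsoluteValue Ω ℝ) (r : Ω → k),
  Red v r → ∀ (ϖ : ℝ → Ω), ϖ 1 = 1 →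
  ∀ (d n : ℕ) (W : Fin n → Finset (Fin d)) (ρ : Fin n → ℕ)
    (b : Fin n → ℕ → MvPolynomial (Fin d) Ω),
    (∀ j l, l < ρ j → (b j l).totalDegree ≤ ρ j - l ∧ (b j l).vars ⊆ W j ∧
      ∀ t, v ((b j l).coeff t) ≤ 1) →
  ∀ (x : Fin d → Ω) (s : Fin n → Ω), OnBase ρ b x s →
    (∀ m, 1 < v (x m) → v (ϖ (v (x m))) = v (x m)) →
  ∃ (T : Typ d) (x' : Fin d → k) (s' : Fin n → k), Tok T ∧ OnBase ρ (bt r ρ b W T) x' s' ∧
    (∀ V Y m, T V = some Y → m ∈ Y → x' m ≠ 0) ∧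
    ∀ (V : Finset (Fin d)) (M : ℝ), IsSz v x V M →
      ∀ (D : ℕ) (f : MvPolynomial (Fin d ⊕ Fin n) Ω), f.totalDegree ≤ D →
      (∀ t ∈ f.vars, Al W V t) → (∀ α, v (f.coeff α) ≤ 1) →
      v (eval (Sum.elim x s) f / ϖ M ^ D) ≤ 1 ∧
      r (eval (Sum.elim x s) f / ϖ M ^ D) =
        ∑ α ∈ f.support, r (f.coeff α) * eval (Sum.elim x' s') (utf k W T V D α)

/-! ### Block 2: counting leading coefficients -/

/-- DEP: more polynomials than variables are algebraically dependent -/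
def T_DEP : Prop := ∀ (V M : Type) [Fintype V] [Fintype M] (f : M → MvPolynomial V ℤ)
  (A : Finset M), Fintype.card V < A.card →
  ∃ R : MvPolynomial M ℤ, R ≠ 0 ∧ (∀ t ∈ R.vars, t ∈ A) ∧ aeval f R = 0

/-- TOP: the leading terms of an algebraic relation -/
def T_TOP : Prop := ∀ (Ω k : Type) [Field Ω] [CharZero Ω] [Field k] (p : ℕ)
  (v : AbsoluteValue Ω ℝ) (r : Ω → k), Red v r → p.Prime → v (p : Ω) < 1 →
  ∀ sp : Ω, sp ^ 2 = (p : Ω) → ∀ (M : Type) [Fintype M] (R : MvPolynomial M ℤ), R ≠ 0 →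
  ∀ (z : M → Ω) (y : M → k), (∀ i, LC v r sp (z i) (y i)) → aeval z R = 0 →
    ∃ B : Finset (M →₀ ℕ), B ⊆ R.support ∧ B.Nonempty ∧
      ∑ α ∈ B, ((upart p (R.coeff α) : ℤ) : k) * ∏ i, y i ^ (α i) = 0

/-- CTL: counting points when all `n` coordinates satisfy a relation -/
def T_CTL : Prop := ∀ (M : Type) [Fintype M] (n L : ℕ), ∃ C : ℕ,
  ∀ (k : Type) [Field k] (E : Finset k) (q : ℕ), E.card ≤ q → ∀ P : Finset M → MvPolynomial M k,
    (∀ A, A.card = n → P A ≠ 0 ∧ (∀ t ∈ (P A).vars, t ∈ A) ∧ (P A).totalDegree ≤ L) →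
    ∀ Y : Finset (M → k), (∀ y ∈ Y, (∀ i, y i ∈ E) ∧ ∀ A, A.card = n → eval y (P A) = 0) →
      Y.card * q ≤ C * q ^ n

/-- RATL (from T_DEP, T_TOP, T_CTL): the vectors of leading coefficients of the values of
polynomials in `V` variables -/
def T_RATL : Prop := ∀ (V M : Type) [Fintype V] [Fintype M] (f : M → MvPolynomial V ℤ),
  ∃ C : ℕ, ∀ (k : Type) [Field k] (p q : ℕ), p.Prime → CharP k p → 1 ≤ q →
    ∀ E : Finset k, E.card ≤ q →
    ∃ Y : Finset (M → k), Y.card ≤ C * q ^ Fintype.card V ∧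
      ∀ (Ω : Type) [Field Ω] [CharZero Ω] (v : AbsoluteValue Ω ℝ) (r : Ω → k), Red v r →
        v (p : Ω) < 1 → ∀ sp : Ω, sp ^ 2 = (p : Ω) → ∀ (t : V → Ω) (y : M → k),
        (∀ i, LC v r sp (aeval t (f i)) (y i)) → (∀ i, y i ∈ E) → y ∈ Y

/-- FRB2 (from PKE.T_FRB, RD.p_QFD): either all the leading coefficients of all the embeddings of a
quadratic field are in the prime field, or those of conjugate embeddings are Frobenius conjugate up
to the sign -/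
def T_FRB2 : Prop := ∀ (Ω k : Type) [Field Ω] [CharZero Ω] [Field k] (p : ℕ)
  (v : AbsoluteValue Ω ℝ) (r : Ω → k), Red v r → p.Prime → 3 ≤ p → v (p : Ω) < 1 →
  ∀ (a sp : Ω) (t n : ℤ), a ^ 2 = t * a - n → sp ^ 2 = (p : Ω) →
  (∀ σ : Ω →+* Ω, ∀ x ∈ IntermediateField.adjoin ℚ {a}, ∀ e : ℤ, v (σ x) = v (σ sp) ^ e →
    r (σ (x * sp ^ (-e))) ^ p = r (σ (x * sp ^ (-e)))) ∨
  (∀ σ σ' : Ω →+* Ω, σ a ≠ σ' a → ∀ x ∈ IntermediateField.adjoin ℚ {a}, ∀ e : ℤ,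
    v (σ x) = v (σ sp) ^ e → v (σ' x) = v (σ' sp) ^ e ∧
      (r (σ' (x * sp ^ (-e))) = r (σ (x * sp ^ (-e))) ^ p ∨
        r (σ' (x * sp ^ (-e))) = - r (σ (x * sp ^ (-e))) ^ p))

/-- JLC (from T_RATL, T_FRB2, PKS.T_VAL, PKS.T_RS2): leading coefficients of the values of
polynomials at a point over a quadratic field, jointly for all the embeddings -/
def T_JLC : Prop := ∀ (V M : Type) [Fintype V] [Fintype M] (f : M → MvPolynomial V ℤ),
  ∃ C : ℕ, ∀ (k : Type) [Field k] (p : ℕ), p.Prime → 3 ≤ p → CharP k p →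
    ∃ Ys : Finset (Bool → Bool → M → k), Ys.card ≤ C * p ^ (2 * Fintype.card V) ∧
      ∀ (Ω : Type) [Field Ω] [CharZero Ω] [DecidableEq Ω] (v : AbsoluteValue Ω ℝ) (r : Ω → k),
        Red v r → v (p : Ω) < 1 → ∀ (a sp : Ω) (t n : ℤ), a ^ 2 = t * a - n →
        sp ^ 2 = (p : Ω) → ∀ z : V → IntermediateField.adjoin ℚ {a},
        ∃ y ∈ Ys, ∀ (σ : Ω →+* Ω) (i : M) (e : ℤ),
          v (σ ((aeval z (f i) : IntermediateField.adjoin ℚ {a}) : Ω)) = v (σ sp) ^ e →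
            r (σ (((aeval z (f i) : IntermediateField.adjoin ℚ {a}) : Ω) * sp ^ (-e))) =
              y (decide (σ a = a)) (decide (σ sp = sp)) i

/-- DAT2 (from T_JLC, PKE.T_ECH, PKS.T_UNQ, PKS.T_VAL): leading coefficients of the echelon bases
of all the coordinate sections of a subspace -/
def T_DAT2 : Prop := ∀ g e : ℕ, ∃ C : ℕ, ∀ (k : Type) [Field k] (p : ℕ), p.Prime → 3 ≤ p →
  CharP k p →
  ∃ Ds : Finset (Bool → Bool → Dt g k), Ds.card ≤ C * p ^ (2 * (e * (g - e))) ∧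
    ∀ (Ω : Type) [Field Ω] [CharZero Ω] [DecidableEq Ω] (v : AbsoluteValue Ω ℝ) (r : Ω → k),
      Red v r → v (p : Ω) < 1 → ∀ (a sp : Ω) (t n : ℤ), a ^ 2 = t * a - n → sp ^ 2 = (p : Ω) →
      ∀ U : Submodule (IntermediateField.adjoin ℚ {a}) (Fin g → IntermediateField.adjoin ℚ {a}),
        Module.finrank (IntermediateField.adjoin ℚ {a}) U = e →
        ∃ D ∈ Ds, ∀ (σ : Ω →+* Ω) (S J : Finset (Fin g))
          (τ : Fin g → Fin g → IntermediateField.adjoin ℚ {a}),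
          (∀ j ∈ J, τ j ∈ U ∧ τ j j = 1 ∧ (∀ j' ∈ J, j' ≠ j → τ j j' = 0) ∧
            ∀ i ∈ S, τ j i = 0) →
          J.card = Module.finrank (IntermediateField.adjoin ℚ {a})
            (U ⊓ (⨅ i ∈ S, LinearMap.ker (LinearMap.proj i :
              (Fin g → IntermediateField.adjoin ℚ {a}) →ₗ[IntermediateField.adjoin ℚ {a}]
                IntermediateField.adjoin ℚ {a})) :
              Submodule (IntermediateField.adjoin ℚ {a}) (Fin g → IntermediateField.adjoin ℚ {a})) →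
          ∀ j ∈ J, ∀ (i : Fin g) (e' : ℤ), v (σ (τ j i : Ω)) = v (σ sp) ^ e' →
            r (σ ((τ j i : Ω) * sp ^ (-e'))) = D (decide (σ a = a)) (decide (σ sp = sp)) S J j i

/-! ### Block 3: elimination -/

/-- ELI3 (from PKS.T_ELI2): elimination, arbitrary index set -/
def T_ELI3 : Prop := ∀ (d n D : ℕ) (ρ : Fin n → ℕ) (ι C : Type) [Fintype ι] [DecidableEq ι]
  [Fintype C] [DecidableEq C] (q : C → ι) (α0 : ι → C), (∀ i, q (α0 i) = i) →
  ∃ L : ℕ, ∀ (k : Type) [Field k] (b : Fin n → ℕ → MvPolynomial (Fin d) k)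
    (u : C → MvPolynomial (Fin d ⊕ Fin n) k) (S J : Finset ι) (τ : ι → ι → k),
    (∀ j l, l < ρ j → (b j l).totalDegree ≤ ρ j - l) → (∀ α, (u α).totalDegree ≤ D) →
    Disjoint S J → d + 1 ≤ S.card + J.card →
    ∃ Φ : MvPolynomial C k, Φ ≠ 0 ∧ Φ.totalDegree ≤ L ∧
      ∀ c p s h, Sys3 ρ b q u α0 S J τ c p s h → eval c Φ = 0

end PKT
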