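import Mathlib
import Pool.Agent.PKT.Targets
import Pool.Agent.PKD.GRP
import Pool.Agent.PKD.RedLem

/-! Leading coefficients of the values of polynomials at a point over a quadratic field, jointly for
all the embeddings. -/

set_option autoImplicit false
set_option maxHeartbeats 4000000

namespace PKT

open MvPolynomial RD PKD PKS PKD.GRP_

namespace JLC_

/-- the solutions of `x ^ q = x` -/
theorem fix_set {k : Type} [Field k] (q : ℕ) (hq : 2 ≤ q) :
    ∃ Q : Finset k, Q.card ≤ q ∧ ∀ x : k, x ^ q = x → x ∈ Q := by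
  classical
  have hp2 : 1 < q := by omega
  have hne : (Polynomial.X ^ q - Polynomial.X : Polynomial k) ≠ 0 :=
    FiniteField.X_pow_card_sub_X_ne_zero k hp2
  refine ⟨(Polynomial.X ^ q - Polynomial.X : Polynomial k).roots.toFinset, ?_, ?_⟩
  · refine (Multiset.toFinset_card_le _).trans ?_
    refine (Polynomial.card_roots' _).trans ?_
    rw [FiniteField.X_pow_card_sub_X_natDegree_eq k hp2]
  · intro x hx
    rw [Multiset.mem_toFinset, Polynomial.mem_roots hne]
    simp [hx]

/-- evaluation and embeddings -/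
theorem map_ev {Ω K : Type} [Field Ω] [Field K] (ψ : K →+* Ω) {V : Type} (z : V → K)
    (F : MvPolynomial V ℤ) : ψ (aeval z F) = aeval (fun j => ψ (z j)) F := by
  have h := MvPolynomial.comp_aeval_apply (φ := ψ.toIntAlgHom) z F
  exact h

/-- the possible functions -/
theorem fam {M k : Type} [Fintype M] [Field k] (p : ℕ) (Y1 Y2 : Finset (M → k)) :
    ∃ Ys : Finset (Bool → Bool → M → k),
      Ys.card ≤ 2 ^ (4 * Fintype.card M) * (Y1.card * Y1.card + Y2.card) ∧
      ∀ (y : Bool → Bool → M → k) (base : Bool → M → k),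
        ((base true ∈ Y1 ∧ base false ∈ Y1) ∨
          (base true ∈ Y2 ∧ ∀ i, base false i = base true i ^ p)) →
        (∀ c s i, y c s i = base c i ∨ y c s i = - base c i) → y ∈ Ys := by
  classical
  let B : Finset (Bool → M → k) :=
    ((Y1 ×ˢ Y1).image fun q => fun c : Bool => if c then q.1 else q.2) ∪
      Y2.image fun q => fun c : Bool => if c then q else fun i => q i ^ p
  let Ys : Finset (Bool → Bool → M → k) :=
    ((Finset.univ : Finset (Bool → Bool → M → Bool)) ×ˢ B).image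
      fun q => fun c s i => if q.1 c s i then q.2 c i else - q.2 c i
  refine ⟨Ys, ?_, ?_⟩
  · have h1 : B.card ≤ Y1.card * Y1.card + Y2.card := by
      refine (Finset.card_union_le _ _).trans ?_
      refine Nat.add_le_add ?_ Finset.card_image_le
      refine Finset.card_image_le.trans ?_
      rw [Finset.card_product]
    have h2 : (Finset.univ : Finset (Bool → Bool → M → Bool)).card = 2 ^ (4 * Fintype.card M) := by
      rw [Finset.card_univ, Fintype.card_fun, Fintype.card_fun, Fintype.card_fun,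
        Fintype.card_bool, ← pow_mul, ← pow_mul]
      congr 1
      ring
    refine Finset.card_image_le.trans ?_
    rw [Finset.card_product, h2]
    exact Nat.mul_le_mul_left _ h1
  · intro y base hbase hy
    rw [Finset.mem_image]
    refine ⟨(fun c s i => decide (y c s i = base c i), base), ?_, ?_⟩
    · rw [Finset.mem_product]
      refine ⟨Finset.mem_univ _, ?_⟩
      rw [Finset.mem_union]
      rcases hbase with ⟨h1, h2⟩ | ⟨h1, h2⟩
      · left
        rw [Finset.mem_image]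
        refine ⟨(base true, base false), Finset.mem_product.2 ⟨h1, h2⟩, ?_⟩
        funext c
        cases c <;> simp
      · right
        rw [Finset.mem_image]
        refine ⟨base true, h1, ?_⟩
        funext c
        cases c
        · funext i
          simp [h2]
        · simp
    · funext c s i
      show (if decide (y c s i = base c i) then base c i else - base c i) = y c s i
      by_cases h : y c s i = base c i
      · rw [if_pos (by simpa using h)]
        exact h.symm
      · rw [if_neg (by simpa using h)]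
        exact ((hy c s i).resolve_left h).symm

end JLC_

open JLC_

theorem p_JLC (h1 : T_RATL) (h2 : T_FRB2) (h3 : PKS.T_VAL) (h4 : PKS.T_RS2) : T_JLC := by
  classical
  intro V M _ _ f
  obtain ⟨C1, hC1⟩ := h1 V M f
  refine ⟨2 ^ (4 * Fintype.card M) * (C1 * C1 + C1), ?_⟩
  intro k _ p hp hp3 hchar
  obtain ⟨E1, hE1c, hE1⟩ := fix_set (k := k) p (by omega)
  obtain ⟨E2, hE2c, hE2⟩ := fix_set (k := k) (p ^ 2) (by nlinarith)
  obtain ⟨Y1, hY1c, hY1⟩ := hC1 k p p hp hchar (by omega) E1 hE1c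
  obtain ⟨Y2, hY2c, hY2⟩ := hC1 k p (p ^ 2) hp hchar (by nlinarith) E2 hE2c
  obtain ⟨Ys, hYsc, hYs⟩ := fam p Y1 Y2
  refine ⟨Ys, ?_, ?_⟩
  · refine hYsc.trans ?_
    have e1 : Y1.card * Y1.card ≤ C1 * C1 * p ^ (2 * Fintype.card V) := by
      calc Y1.card * Y1.card ≤ (C1 * p ^ Fintype.card V) * (C1 * p ^ Fintype.card V) :=
            Nat.mul_le_mul hY1c hY1c
        _ = C1 * C1 * p ^ (2 * Fintype.card V) := by ring
    have e2 : Y2.card ≤ C1 * p ^ (2 * Fintype.card V) := by
      rw [← pow_mul] at hY2c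
      exact hY2c
    calc 2 ^ (4 * Fintype.card M) * (Y1.card * Y1.card + Y2.card) ≤
        2 ^ (4 * Fintype.card M) *
          (C1 * C1 * p ^ (2 * Fintype.card V) + C1 * p ^ (2 * Fintype.card V)) :=
          Nat.mul_le_mul_left _ (Nat.add_le_add e1 e2)
      _ = _ := by ring
  intro Ω _ _ _ v r hr hvp a sp t n ha hsp z
  have hsp0 : sp ≠ 0 := by
    rintro rfl
    rw [zero_pow two_ne_zero] at hsp
    exact (Nat.cast_ne_zero.2 hp.ne_zero) hsp.symm
  have hσsp : ∀ σ : Ω →+* Ω, (σ sp) ^ 2 = (p : Ω) := fun σ => by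
    rw [← map_pow, hsp, map_natCast]
  have hvsp : ∀ σ : Ω →+* Ω, v (σ sp) ^ 2 = v (p : Ω) := fun σ => by rw [← v.map_pow, hσsp]
  have hvsp1 : ∀ σ : Ω →+* Ω, v (σ sp) < 1 := by
    intro σ
    by_contra hcon
    push Not at hcon
    have : 1 ≤ v (σ sp) ^ 2 := one_le_pow₀ hcon
    rw [hvsp] at this
    linarith
  have hvspe : ∀ σ σ' : Ω →+* Ω, v (σ sp) = v (σ' sp) := by
    intro σ σ'
    have : v (σ sp) ^ 2 = v (σ' sp) ^ 2 := by rw [hvsp, hvsp]
    exact (pow_left_inj₀ (v.nonneg _) (v.nonneg _) two_ne_zero).1 this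
  have hσsp0 : ∀ σ : Ω →+* Ω, σ sp ≠ 0 := fun σ => by
    intro h0
    have h1 := hσsp σ
    rw [h0, zero_pow two_ne_zero] at h1
    exact (Nat.cast_ne_zero.2 hp.ne_zero) h1.symm
  have hvsp0 : ∀ σ : Ω →+* Ω, 0 < v (σ sp) := fun σ => v.pos (hσsp0 σ)
  have hvσp : ∀ σ : Ω →+* Ω, v (σ (p : Ω)) < 1 := fun σ => by rw [map_natCast]; exact hvp
  have hspcase : ∀ σ : Ω →+* Ω, σ sp = sp ∨ σ sp = -sp := by
    intro σ
    have h6 : (σ sp - sp) * (σ sp + sp) = 0 := by
      linear_combination hσsp σ - hsp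
    rcases mul_eq_zero.1 h6 with h | h
    · exact Or.inl (sub_eq_zero.1 h)
    · exact Or.inr (by linear_combination h)
  -- the values
  set x : M → Ω := fun i => ((aeval z (f i) : IntermediateField.adjoin ℚ {a}) : Ω) with hx
  have hxm : ∀ i, x i ∈ IntermediateField.adjoin ℚ {a} := fun i => Subtype.property _
  have hee : ∀ (σ : Ω →+* Ω) (i : M), ∃ e : ℤ, x i ≠ 0 → v (σ (x i)) = v (σ sp) ^ e := by
    intro σ i
    by_cases h0 : x i = 0
    · exact ⟨0, fun h => absurd h0 h⟩
    · obtain ⟨e, he⟩ := h3 Ω p (v.comp σ.injective) (hr.comp σ).na hp (hvσp σ) a sp t n ha hsp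
        (x i) (hxm i) h0
      exact ⟨e, fun _ => he⟩
  choose ex hex using hee
  have huniq : ∀ (σ : Ω →+* Ω) (i : M) (e : ℤ), x i ≠ 0 → v (σ (x i)) = v (σ sp) ^ e →
      ex σ i = e := by
    intro σ i e h0 he
    have h5 := hex σ i h0
    rw [he] at h5
    exact (zpow_right_injective₀ (hvsp0 σ) (hvsp1 σ).ne h5).symm
  have hone : ∀ (σ : Ω →+* Ω) (i : M) (e : ℤ), v (σ (x i)) = v (σ sp) ^ e →
      v (σ (x i * sp ^ (-e))) = 1 := by
    intro σ i e he
    rw [map_mul, map_zpow₀, v.map_mul, map_zpow₀, he, zpow_neg, mul_inv_cancel₀]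
    exact zpow_ne_zero _ (hvsp0 σ).ne'
  set Y : (Ω →+* Ω) → M → k := fun σ i =>
    if x i = 0 then 0 else r (σ (x i * sp ^ (-(ex σ i)))) with hY
  have hY0 : ∀ σ i, x i = 0 → Y σ i = 0 := fun σ i h => if_pos h
  have hYn : ∀ σ i, x i ≠ 0 → Y σ i = r (σ (x i * sp ^ (-(ex σ i)))) := fun σ i h => if_neg h
  -- the leading coefficients
  have hLC : ∀ σ i, LC v r (σ sp) (aeval (fun j => σ (z j : Ω)) (f i)) (Y σ i) := by
    intro σ i
    have e1 : aeval (fun j => σ (z j : Ω)) (f i) = σ (x i) := by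
      have := map_ev (σ.comp (algebraMap (IntermediateField.adjoin ℚ {a}) Ω)) z (f i)
      exact this.symm
    rw [e1]
    by_cases h0 : x i = 0
    · left
      exact ⟨by rw [h0, map_zero], hY0 σ i h0⟩
    · right
      refine ⟨ex σ i, hex σ i h0, ?_⟩
      rw [hYn σ i h0, map_mul, map_zpow₀]
  have hmem2 : ∀ σ, Y σ ∈ Y2 := by
    intro σ
    refine hY2 Ω v r hr hvp (σ sp) (hσsp σ) _ _ (hLC σ) fun i => hE2 _ ?_
    by_cases h0 : x i = 0
    · rw [hY0 σ i h0]
      exact zero_pow (pow_ne_zero 2 hp.ne_zero)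
    · rw [hYn σ i h0]
      exact h4 Ω k p (v.comp σ.injective) (fun y => r (σ y)) (hr.comp σ) hp hp3 (hvσp σ) a sp t n
        ha hsp (x i) (hxm i) (-(ex σ i)) (hone σ i _ (hex σ i h0)).le
  -- embeddings with the same value at `a`
  have hA : ∀ σ τ : Ω →+* Ω, σ a = τ a → (∀ i, Y τ i = Y σ i ∨ Y τ i = - Y σ i) ∧
      (σ sp = τ sp → Y τ = Y σ) := by
    intro σ τ hστ
    have hF := sigma_eq σ τ a t n ha hστ
    have hexe : ∀ i, x i ≠ 0 → ex τ i = ex σ i := by
      intro i h0
      apply huniq τ i _ h0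
      rw [← hF _ (hxm i), hvspe τ σ]
      exact hex σ i h0
    have hval : ∀ i, x i ≠ 0 → Y τ i = r (σ (x i) * (τ sp) ^ (-(ex σ i))) := by
      intro i h0
      rw [hYn τ i h0, hexe i h0, map_mul, map_zpow₀, hF _ (hxm i)]
    have hval' : ∀ i, x i ≠ 0 → Y σ i = r (σ (x i) * (σ sp) ^ (-(ex σ i))) := by
      intro i h0
      rw [hYn σ i h0, map_mul, map_zpow₀]
    have hsame : σ sp = τ sp → Y τ = Y σ := by
      intro hs
      funext i
      by_cases h0 : x i = 0
      · rw [hY0 τ i h0, hY0 σ i h0]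
      · rw [hval i h0, hval' i h0, hs]
    refine ⟨?_, hsame⟩
    intro i
    by_cases h0 : x i = 0
    · left
      rw [hY0 τ i h0, hY0 σ i h0]
    by_cases hs : σ sp = τ sp
    · left
      rw [hsame hs]
    have hneg : τ sp = - σ sp := by
      rcases hspcase σ with h5 | h5 <;> rcases hspcase τ with h6 | h6
      · exact absurd (h5.trans h6.symm) hs
      · rw [h6, h5]
      · rw [h6, h5, neg_neg]
      · exact absurd (h5.trans h6.symm) hs
    rw [hval i h0, hval' i h0, hneg]
    have h7 : v (σ (x i) * (σ sp) ^ (-(ex σ i))) ≤ 1 := by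
      have := (hone σ i _ (hex σ i h0)).le
      rwa [map_mul, map_zpow₀] at this
    rcases Int.even_or_odd (-(ex σ i)) with he | ho
    · left
      rw [he.neg_zpow]
    · right
      rw [ho.neg_zpow, mul_neg, hr.neg h7]
  have hacase : ∀ σ : Ω →+* Ω, σ a ≠ a → σ a = t - a := by
    intro σ h
    rcases root_cases a (σ a) t n ha (sigma_root σ a t n ha) with h8 | h8
    · exact absurd h8 h
    · exact h8
  -- the base functions
  have hbase : ∃ base : Bool → M → k, ((base true ∈ Y1 ∧ base false ∈ Y1) ∨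
      (base true ∈ Y2 ∧ ∀ i, base false i = base true i ^ p)) ∧
      (∀ (τ : Ω →+* Ω) (c : Bool), decide (τ a = a) = c →
        ∀ i, Y τ i = base c i ∨ Y τ i = - base c i) := by
    have hid : ∀ (τ : Ω →+* Ω), decide (τ a = a) = true →
        ∀ i, Y τ i = Y (RingHom.id Ω) i ∨ Y τ i = - Y (RingHom.id Ω) i := by
      intro τ hτ
      exact (hA (RingHom.id Ω) τ (of_decide_eq_true hτ).symm).1
    rcases h2 Ω k p v r hr hp hp3 hvp a sp t n ha hsp with hF | hF
    · have hmem1 : ∀ σ, Y σ ∈ Y1 := by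
        intro σ
        refine hY1 Ω v r hr hvp (σ sp) (hσsp σ) _ _ (hLC σ) fun i => hE1 _ ?_
        by_cases h0 : x i = 0
        · rw [hY0 σ i h0]
          exact zero_pow hp.ne_zero
        · rw [hYn σ i h0]
          exact hF σ (x i) (hxm i) (ex σ i) (hex σ i h0)
      by_cases hσ0 : ∃ σ₀ : Ω →+* Ω, σ₀ a ≠ a
      · obtain ⟨σ₀, hσ₀⟩ := hσ0
        refine ⟨fun c => if c then Y (RingHom.id Ω) else Y σ₀,
          Or.inl ⟨hmem1 _, hmem1 _⟩, ?_⟩
        intro τ c hτ
        cases c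
        · have h5 : τ a ≠ a := of_decide_eq_false hτ
          exact (hA σ₀ τ (by rw [hacase σ₀ hσ₀, hacase τ h5])).1
        · exact hid τ hτ
      · refine ⟨fun _ => Y (RingHom.id Ω), Or.inl ⟨hmem1 _, hmem1 _⟩, ?_⟩
        intro τ c hτ
        cases c
        · exact absurd ⟨τ, of_decide_eq_false hτ⟩ hσ0
        · exact hid τ hτ
    · refine ⟨fun c i => if c then Y (RingHom.id Ω) i else Y (RingHom.id Ω) i ^ p,
        Or.inr ⟨hmem2 _, fun i => rfl⟩, ?_⟩
      intro τ c hτ
      cases c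
      · have h5 : τ a ≠ a := of_decide_eq_false hτ
        intro i
        show Y τ i = Y (RingHom.id Ω) i ^ p ∨ Y τ i = -(Y (RingHom.id Ω) i ^ p)
        by_cases h0 : x i = 0
        · left
          rw [hY0 τ i h0, hY0 _ i h0, zero_pow hp.ne_zero]
        · obtain ⟨h6, h7⟩ := hF (RingHom.id Ω) τ (fun h => h5 h.symm) (x i) (hxm i)
            (ex (RingHom.id Ω) i) (hex (RingHom.id Ω) i h0)
          rw [hYn τ i h0, hYn _ i h0, huniq τ i _ h0 h6]
          exact h7
      · exact hid τ hτ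
  obtain ⟨base, hb1, hb2⟩ := hbase
  have hrep : ∀ c s : Bool, ∃ y' : M → k, (∀ i, y' i = base c i ∨ y' i = - base c i) ∧
      ∀ σ : Ω →+* Ω, decide (σ a = a) = c → decide (σ sp = sp) = s → Y σ = y' := by
    intro c s
    by_cases hρ : ∃ ρ : Ω →+* Ω, decide (ρ a = a) = c ∧ decide (ρ sp = sp) = s
    · obtain ⟨ρ, hρ1, hρ2⟩ := hρ
      refine ⟨Y ρ, hb2 ρ c hρ1, ?_⟩
      intro σ hσ1 hσ2
      have e1 : ρ a = σ a := by
        have h6 : (σ a = a) ↔ (ρ a = a) := decide_eq_decide.mp (hσ1.trans hρ1.symm)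
        by_cases h7 : ρ a = a
        · rw [h7, h6.mpr h7]
        · rw [hacase ρ h7, hacase σ (fun h => h7 (h6.mp h))]
      have e2 : ρ sp = σ sp := by
        have h6 : (σ sp = sp) ↔ (ρ sp = sp) := decide_eq_decide.mp (hσ2.trans hρ2.symm)
        by_cases h7 : ρ sp = sp
        · rw [h7, h6.mpr h7]
        · rw [(hspcase ρ).resolve_left h7, (hspcase σ).resolve_left (fun h => h7 (h6.mp h))]
      exact (hA ρ σ e1).2 e2
    · refine ⟨base c, fun i => Or.inl rfl, ?_⟩
      intro σ hσ1 hσ2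
      exact absurd ⟨σ, hσ1, hσ2⟩ hρ
  choose y hy1 hy2 using hrep
  refine ⟨y, hYs y base hb1 hy1, ?_⟩
  intro σ i e he
  have h0 : x i ≠ 0 := by
    intro h0
    have h5 : v (σ (x i)) = v (σ sp) ^ e := he
    rw [h0, map_zero, v.map_zero] at h5
    exact zpow_ne_zero _ (hvsp0 σ).ne' h5.symm
  have h5 := hy2 _ _ σ rfl rfl
  rw [← h5, hYn σ i h0, huniq σ i e h0 he]

end PKT
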