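import Pool.Agent.PKT.Targets

set_option autoImplicit false

/-! RATL: counting vectors of leading coefficients. -/

namespace PKT

open MvPolynomial RD PKD PKS

namespace RATL_

theorem upart_ndvd (p : ℕ) (hp : p.Prime) (q : ℤ) (hq : q ≠ 0) : ¬ (p : ℤ) ∣ upart p q := by
  have : Fact p.Prime := ⟨hp⟩
  intro hdvd
  unfold upart at hdvd
  have h1 : (p : ℤ) ^ padicValInt p q ∣ q := padicValInt_dvd q
  obtain ⟨c, hc⟩ := h1
  have hpp : (p : ℤ) ^ padicValInt p q ≠ 0 := pow_ne_zero _ (by exact_mod_cast hp.ne_zero)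
  have h2 : q / (p : ℤ) ^ padicValInt p q = c :=
    Int.ediv_eq_of_eq_mul_right hpp hc
  rw [h2] at hdvd
  obtain ⟨d, hd⟩ := hdvd
  have h3 : (p : ℤ) ^ (padicValInt p q + 1) ∣ q := by
    refine ⟨d, ?_⟩
    rw [pow_succ, mul_assoc, ← hd]
    exact hc
  rw [padicValInt_dvd_iff] at h3
  rcases h3 with h3 | h3
  · exact hq h3
  · omega

theorem upart_ne (k : Type) [Field k] (p : ℕ) [CharP k p] (hp : p.Prime) (q : ℤ) (hq : q ≠ 0) :
    ((upart p q : ℤ) : k) ≠ 0 := by
  intro h
  exact upart_ndvd p hp q hq ((CharP.intCast_eq_zero_iff k p _).1 h)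

end RATL_

open RATL_ in
theorem p_RATL (h1 : T_DEP) (h2 : T_TOP) (h3 : T_CTL) : T_RATL := by
  classical
  intro V M _ _ f
  set n : ℕ := Fintype.card V + 1 with hn
  have hex : ∀ A : Finset M, ∃ R : MvPolynomial M ℤ, A.card = n →
      (R ≠ 0 ∧ (∀ t ∈ R.vars, t ∈ A) ∧ aeval f R = 0) := by
    intro A
    by_cases hA : A.card = n
    · obtain ⟨R, hR⟩ := h1 V M f A (by omega)
      exact ⟨R, fun _ => hR⟩
    · exact ⟨0, fun h => absurd h hA⟩
  choose RA hRA using hex
  set L : ℕ := Finset.univ.sup (fun A => (RA A).totalDegree) with hL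
  obtain ⟨C0, hC0⟩ := h3 M n L
  set ch : Finset (Finset M → Finset (M →₀ ℕ)) :=
    Fintype.piFinset (fun A => (RA A).support.powerset) with hch
  refine ⟨ch.card * C0, ?_⟩
  intro k _ p q hp hchar hq E hE
  set P : (Finset M → Finset (M →₀ ℕ)) → Finset M → MvPolynomial M k := fun Bf A =>
    ∑ α ∈ Bf A, monomial α ((upart p ((RA A).coeff α) : ℤ) : k) with hP
  have hcoef : ∀ Bf A d, coeff d (P Bf A) =
      if d ∈ Bf A then ((upart p ((RA A).coeff d) : ℤ) : k) else 0 := by
    intro Bf A d
    simp only [hP, coeff_sum, coeff_monomial]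
    rw [Finset.sum_ite_eq']
  have hsupp : ∀ Bf A d, d ∈ (P Bf A).support → d ∈ Bf A := by
    intro Bf A d hd
    rw [mem_support_iff, hcoef] at hd
    by_contra hcon
    rw [if_neg hcon] at hd
    exact hd rfl
  set Y0 : (Finset M → Finset (M →₀ ℕ)) → Finset (M → k) := fun Bf =>
    if (∀ A, A.card = n → (Bf A).Nonempty) then
      (Fintype.piFinset (fun _ : M => E)).filter (fun y => ∀ A, A.card = n → eval y (P Bf A) = 0)
    else ∅ with hY0
  refine ⟨ch.biUnion Y0, ?_, ?_⟩
  · have hb : ∀ Bf ∈ ch, (Y0 Bf).card ≤ C0 * q ^ Fintype.card V := by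
      intro Bf hBf
      have hsub : ∀ A, Bf A ⊆ (RA A).support := by
        intro A
        rw [hch, Fintype.mem_piFinset] at hBf
        exact Finset.mem_powerset.1 (hBf A)
      simp only [hY0]
      split_ifs with hne
      · have h4 := hC0 k E q hE (P Bf) (by
          intro A hA
          refine ⟨?_, ?_, ?_⟩
          · intro h0
            obtain ⟨α, hα⟩ := hne A hA
            have h5 := hcoef Bf A α
            rw [h0, coeff_zero, if_pos hα] at h5
            exact upart_ne k p hp _ (mem_support_iff.1 (hsub A hα)) h5.symm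
          · intro t ht
            rw [mem_vars_iff_mem_support] at ht
            obtain ⟨d, hd, hdt⟩ := ht
            refine (hRA A hA).2.1 t ?_
            rw [mem_vars_iff_mem_support]
            exact ⟨d, hsub A (hsupp Bf A d hd), hdt⟩
          · unfold totalDegree
            refine Finset.sup_le ?_
            intro d hd
            have h6 : (d.sum fun _ e => e) ≤ (RA A).totalDegree :=
              le_totalDegree (hsub A (hsupp Bf A d hd))
            refine le_trans h6 ?_
            rw [hL]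
            exact Finset.le_sup (f := fun A => (RA A).totalDegree) (Finset.mem_univ A))
          ((Fintype.piFinset (fun _ : M => E)).filter
            (fun y => ∀ A, A.card = n → eval y (P Bf A) = 0)) (by
          intro y hy
          rw [Finset.mem_filter, Fintype.mem_piFinset] at hy
          exact hy)
        rw [hn, pow_succ, ← mul_assoc] at h4
        exact Nat.le_of_mul_le_mul_right h4 (by omega)
      · simp
    calc (ch.biUnion Y0).card ≤ ∑ Bf ∈ ch, (Y0 Bf).card := Finset.card_biUnion_le
      _ ≤ ∑ _Bf ∈ ch, C0 * q ^ Fintype.card V := Finset.sum_le_sum hb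
      _ = ch.card * C0 * q ^ Fintype.card V := by
          rw [Finset.sum_const, smul_eq_mul, mul_assoc]
  · intro Ω _ _ v r hr hvp sp hsp t y hLC hyE
    have hB : ∀ A : Finset M, ∃ B : Finset (M →₀ ℕ), B ⊆ (RA A).support ∧ (A.card = n →
        B.Nonempty ∧ ∑ α ∈ B, ((upart p ((RA A).coeff α) : ℤ) : k) * ∏ i, y i ^ (α i) = 0) := by
      intro A
      by_cases hA : A.card = n
      · have hz : aeval (fun i => aeval t (f i)) (RA A) = 0 := by
          have h5 := comp_aeval_apply f (aeval t : MvPolynomial V ℤ →ₐ[ℤ] Ω) (RA A)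
          rw [(hRA A hA).2.2, map_zero] at h5
          exact h5.symm
        obtain ⟨B, hB1, hB2, hB3⟩ := h2 Ω k p v r hr hp hvp sp hsp M (RA A) (hRA A hA).1
          (fun i => aeval t (f i)) y hLC hz
        exact ⟨B, hB1, fun _ => ⟨hB2, hB3⟩⟩
      · exact ⟨∅, Finset.empty_subset _, fun h => absurd h hA⟩
    choose Bf hBf1 hBf2 using hB
    rw [Finset.mem_biUnion]
    refine ⟨Bf, ?_, ?_⟩
    · rw [hch, Fintype.mem_piFinset]
      intro A
      exact Finset.mem_powerset.2 (hBf1 A)
    · simp only [hY0]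
      rw [if_pos (fun A hA => (hBf2 A hA).1), Finset.mem_filter, Fintype.mem_piFinset]
      refine ⟨hyE, ?_⟩
      intro A hA
      rw [← (hBf2 A hA).2]
      simp only [hP, map_sum, eval_monomial]
      refine Finset.sum_congr rfl fun α _ => ?_
      rw [Finsupp.prod_fintype]
      intro i
      exact pow_zero _

end PKT
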