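import Pool.Agent.PKT.Targets

/-!
PKT, SEC: a multiplicative section of the absolute value of an algebraically closed field
(MP_28d749_ag).
-/

set_option autoImplicit false

namespace PKT

open MvPolynomial RD PKD PKS

namespace SEC_

variable {Ω : Type} [Field Ω]

/-- the absolute value of the units, as a homomorphism -/
noncomputable def vh (v : AbsoluteValue Ω ℝ) : Ωˣ →* ℝ :=
  (v.toMonoidHom : Ω →* ℝ).comp (Units.coeHom Ω)

theorem vh_apply (v : AbsoluteValue Ω ℝ) (u : Ωˣ) : vh v u = v (u : Ω) := rfl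

/-- the units of absolute value `1` -/
noncomputable def vN (v : AbsoluteValue Ω ℝ) : Subgroup Ωˣ := (vh v).ker

theorem mem_vN (v : AbsoluteValue Ω ℝ) (u : Ωˣ) : u ∈ vN v ↔ v (u : Ω) = 1 := by
  unfold vN
  rw [MonoidHom.mem_ker, vh_apply]

/-- roots of natural order -/
theorem root_nat [IsAlgClosed Ω] (v : AbsoluteValue Ω ℝ) (m : ℕ) (hm : m ≠ 0) (u : vN v) :
    ∃ w : vN v, w ^ m = u := by
  obtain ⟨z, hz⟩ := IsAlgClosed.exists_pow_nat_eq ((u : Ωˣ) : Ω) (Nat.pos_of_ne_zero hm)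
  have hz0 : z ≠ 0 := by
    intro h
    rw [h, zero_pow hm] at hz
    exact (u : Ωˣ).ne_zero hz.symm
  have hv : v z = 1 := by
    have h1 : v z ^ m = 1 := by
      rw [← map_pow, hz]
      exact (mem_vN v u).1 u.2
    exact (pow_eq_one_iff_of_nonneg (v.nonneg z) hm).1 h1
  refine ⟨⟨Units.mk0 z hz0, (mem_vN v _).2 hv⟩, ?_⟩
  apply Subtype.ext
  apply Units.ext
  exact hz

/-- divisibility -/
theorem surj [IsAlgClosed Ω] (v : AbsoluteValue Ω ℝ) (n : ℤ) (hn : n ≠ 0) :
    Function.Surjective (fun a : Additive (vN v) => n • a) := by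
  intro u
  obtain ⟨w, hw⟩ := root_nat v n.natAbs (Int.natAbs_ne_zero.2 hn) (Additive.toMul u)
  rcases Int.natAbs_eq n with h | h
  · refine ⟨Additive.ofMul w, ?_⟩
    show n • Additive.ofMul w = u
    rw [h, natCast_zsmul, ← ofMul_pow, hw, ofMul_toMul]
  · refine ⟨-Additive.ofMul w, ?_⟩
    show n • (-Additive.ofMul w) = u
    rw [h, neg_smul, smul_neg, neg_neg, natCast_zsmul, ← ofMul_pow, hw, ofMul_toMul]

/-- a projection to the units of absolute value `1` killing `sp` -/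
theorem exists_proj [IsAlgClosed Ω] (v : AbsoluteValue Ω ℝ) (sp : Ωˣ) (h1 : v (sp : Ω) < 1) :
    ∃ c : Ωˣ → Ωˣ, (∀ u, v (c u : Ω) = 1) ∧ (∀ u w, c (u * w) = c u * c w) ∧
      (∀ u : Ωˣ, v (u : Ω) = 1 → c u = u) ∧ c sp = 1 := by
  have hD : DivisibleBy (Additive (vN v)) ℤ :=
    divisibleByOfSMulRightSurj _ _ fun {n} hn => surj v n hn
  have hB : Module.Baer ℤ (Additive (vN v)) := Module.Baer.of_divisible _
  let f : Additive (vN v) × ℤ →+ Additive Ωˣ :=
    AddMonoidHom.coprod (MonoidHom.toAdditive (vN v).subtype)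
      (zmultiplesHom (Additive Ωˣ) (Additive.ofMul sp))
  have hfa : ∀ p : Additive (vN v) × ℤ,
      Additive.toMul (f p) = ((Additive.toMul p.1 : vN v) : Ωˣ) * sp ^ p.2 := by
    intro p
    have h : f p = MonoidHom.toAdditive (vN v).subtype p.1 +
        zmultiplesHom (Additive Ωˣ) (Additive.ofMul sp) p.2 := rfl
    rw [h, toMul_add]
    rfl
  have hf : Function.Injective f := by
    rw [injective_iff_map_eq_zero]
    intro p hp
    have h2 : ((Additive.toMul p.1 : vN v) : Ωˣ) * sp ^ p.2 = 1 := by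
      rw [← hfa, hp]
      rfl
    have h3 : v (sp : Ω) ^ p.2 = 1 := by
      have h4 := congrArg (vh v) h2
      rw [map_mul, map_one, vh_apply, vh_apply, (mem_vN v _).1 (Additive.toMul p.1).2,
        one_mul, Units.val_zpow_eq_zpow_val, map_zpow₀] at h4
      exact h4
    have hpos : 0 < v (sp : Ω) := v.pos sp.ne_zero
    have h5 : p.2 = 0 := (zpow_eq_one_iff_right₀ hpos.le h1.ne).1 h3
    have h6 : Additive.toMul p.1 = 1 := by
      rw [h5, zpow_zero, mul_one] at h2
      exact Subtype.ext h2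
    exact Prod.ext (Additive.toMul.injective h6) h5
  obtain ⟨χ, hχ⟩ := hB.extension_property_addMonoidHom f hf
    (AddMonoidHom.fst (Additive (vN v)) ℤ)
  have hχf : ∀ p, χ (f p) = p.1 := fun p => DFunLike.congr_fun hχ p
  refine ⟨fun u => ((Additive.toMul (χ (Additive.ofMul u)) : vN v) : Ωˣ), fun u => ?_,
    fun u w => ?_, fun u hu => ?_, ?_⟩
  · exact (mem_vN v _).1 (Additive.toMul (χ (Additive.ofMul u))).2
  · show ((Additive.toMul (χ (Additive.ofMul (u * w))) : vN v) : Ωˣ) = _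
    rw [ofMul_mul, map_add, toMul_add, Subgroup.coe_mul]
  · have h2 : f (Additive.ofMul (⟨u, (mem_vN v u).2 hu⟩ : vN v), 0) = Additive.ofMul u := by
      apply Additive.toMul.injective
      rw [hfa]
      simp
    have h3 := hχf (Additive.ofMul (⟨u, (mem_vN v u).2 hu⟩ : vN v), 0)
    rw [h2] at h3
    show ((Additive.toMul (χ (Additive.ofMul u)) : vN v) : Ωˣ) = u
    rw [h3]
    rfl
  · have h2 : f (0, 1) = Additive.ofMul sp := by
      apply Additive.toMul.injective
      rw [hfa]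
      simp
    have h3 := hχf (0, 1)
    rw [h2] at h3
    show ((Additive.toMul (χ (Additive.ofMul sp)) : vN v) : Ωˣ) = 1
    rw [h3]
    rfl

end SEC_

open SEC_

theorem p_SEC : T_SEC := by
  intro Ω _ _ v sp hsp h1
  obtain ⟨c, hc1, hcm, hcu, hcs⟩ := exists_proj v (Units.mk0 sp hsp) h1
  have hcinv : ∀ u : Ωˣ, v (u : Ω) = 1 → ∀ w : Ωˣ, c (w * u) = c w * u := by
    intro u hu w
    rw [hcm, hcu u hu]
  classical
  let s : ℝ → Ω := fun x =>
    if h : ∃ y : Ωˣ, v (y : Ω) = x then ((h.choose * (c h.choose)⁻¹ : Ωˣ) : Ω) else 0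
  have hs : ∀ y : Ωˣ, s (v (y : Ω)) = ((y * (c y)⁻¹ : Ωˣ) : Ω) := by
    intro y
    have h : ∃ z : Ωˣ, v (z : Ω) = v (y : Ω) := ⟨y, rfl⟩
    have h2 : s (v (y : Ω)) = ((h.choose * (c h.choose)⁻¹ : Ωˣ) : Ω) := dif_pos h
    rw [h2]
    have h3 : v (h.choose : Ω) = v (y : Ω) := h.choose_spec
    generalize h.choose = z at h3
    have h4 : v ((y⁻¹ * z : Ωˣ) : Ω) = 1 := by
      rw [Units.val_mul, map_mul, Units.val_inv_eq_inv_val, map_inv₀, h3,
        inv_mul_cancel₀ (v.ne_zero y.ne_zero)]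
    have h5 := hcinv _ h4 y
    rw [mul_inv_cancel_left] at h5
    congr 1
    rw [h5, mul_inv, mul_inv, inv_inv]
    have h6 : z * ((c y)⁻¹ * (y * z⁻¹)) = y * (c y)⁻¹ * (z * z⁻¹) := by ac_rfl
    rw [h6, mul_inv_cancel, mul_one]
  refine ⟨s, ?_, fun y hy => ?_, fun y z hy hz => ?_⟩
  · have h2 := hs (Units.mk0 sp hsp)
    rw [hcs, inv_one, mul_one] at h2
    exact h2
  · have h2 := hs (Units.mk0 y hy)
    rw [Units.val_mk0] at h2
    rw [h2, Units.val_mul, map_mul, Units.val_inv_eq_inv_val, map_inv₀, hc1, inv_one, mul_one,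
      Units.val_mk0]
  · have h2 := hs (Units.mk0 y hy)
    have h3 := hs (Units.mk0 z hz)
    have h4 := hs (Units.mk0 y hy * Units.mk0 z hz)
    rw [Units.val_mk0] at h2 h3
    rw [Units.val_mul, Units.val_mk0, Units.val_mk0, map_mul] at h4
    rw [h2, h3, h4, ← Units.val_mul, hcm, mul_inv]
    congr 1
    exact mul_mul_mul_comm _ _ _ _

end PKT
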