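import Pool.Agent.PKT.Targets
import Pool.Agent.PKD.RedLem

/-!
# PKT-TOP: the leading terms of an algebraic relation
-/

set_option autoImplicit false

namespace PKT

open MvPolynomial RD PKD PKS

namespace TOP_

lemma upart_mul {p : ℕ} {q : ℤ} : q = (p : ℤ) ^ (padicValInt p q) * upart p q := by
  unfold upart
  have h : (p : ℤ) ^ padicValInt p q ∣ q := padicValInt_dvd q
  exact (Int.mul_ediv_cancel' h).symm

lemma upart_cop {p : ℕ} (hp : p.Prime) {q : ℤ} (hq : q ≠ 0) : IsCoprime (upart p q) (p : ℤ) := by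
  have : Fact p.Prime := ⟨hp⟩
  have hpz : Prime (p : ℤ) := Nat.prime_iff_prime_int.1 hp
  rw [isCoprime_comm]
  refine (hpz.irreducible.coprime_iff_not_dvd).2 fun hd => ?_
  obtain ⟨w, hw⟩ := hd
  have h1 : (p : ℤ) ^ (padicValInt p q + 1) ∣ q := by
    refine ⟨w, ?_⟩
    conv_lhs => rw [upart_mul (p := p) (q := q), hw]
    ring
  rw [padicValInt_dvd_iff] at h1
  rcases h1 with h1 | h1
  · exact hq h1
  · omega

lemma zsum {Ω : Type} [Field Ω] {sp : Ω} (h : sp ≠ 0) {M : Type} (s : Finset M) (a : M → ℕ)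
    (e : M → ℤ) : sp ^ (-∑ i ∈ s, (a i : ℤ) * e i) = ∏ i ∈ s, (sp ^ (-e i)) ^ a i := by
  classical
  induction s using Finset.induction_on with
  | empty => simp
  | insert i s hi ih =>
    rw [Finset.sum_insert hi, Finset.prod_insert hi, neg_add, zpow_add₀ h, ih]
    congr 1
    rw [← zpow_natCast, ← zpow_mul]
    congr 1
    ring

end TOP_

/-- TOP: the leading terms of an algebraic relation -/
theorem p_TOP : T_TOP := by
  classical
  intro Ω k _ _ _ p v r hr hp hvp sp hsp M _ R hR z y hLC hz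
  have hp0 : (p : Ω) ≠ 0 := Nat.cast_ne_zero.2 hp.ne_zero
  have hsp0 : sp ≠ 0 := by
    rintro rfl
    apply hp0
    rw [← hsp]
    simp
  have hvsp : 0 < v sp := v.pos hsp0
  have hv2 : v sp ^ 2 = v (p : Ω) := by rw [← hsp, v.map_pow]
  have hvsp1 : v sp < 1 := by
    by_contra hc
    push Not at hc
    have : 1 ≤ v sp ^ 2 := one_le_pow₀ hc
    rw [hv2] at this
    linarith
  have hinj : Function.Injective fun e : ℤ => v sp ^ e := zpow_right_injective₀ hvsp hvsp1.ne
  -- the terms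
  set tm : (M →₀ ℕ) → Ω := fun α => ((R.coeff α : ℤ) : Ω) * ∏ i, z i ^ α i with htm
  have hsum : ∑ α ∈ R.support, tm α = 0 := by
    rw [← hz, aeval_def, eval₂_eq']
    rfl
  by_cases hall : ∀ α ∈ R.support, tm α = 0
  · refine ⟨R.support, Finset.Subset.refl _, ?_, Finset.sum_eq_zero fun α hα => ?_⟩
    · rw [Finset.nonempty_iff_ne_empty]
      exact fun h => hR (support_eq_empty.1 h)
    · have h1 := hall α hα
      rw [htm] at h1
      have h2 : ((R.coeff α : ℤ) : Ω) ≠ 0 := Int.cast_ne_zero.2 (mem_support_iff.1 hα)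
      have h3 : ∏ i, z i ^ α i = 0 := by
        rcases mul_eq_zero.1 h1 with h | h
        · exact absurd h h2
        · exact h
      obtain ⟨i, hi, h4⟩ := Finset.prod_eq_zero_iff.1 h3
      have h5 : α i ≠ 0 := by
        intro h0
        rw [h0, pow_zero] at h4
        exact one_ne_zero h4
      have h6 : z i = 0 := pow_eq_zero_iff h5 |>.1 h4
      have h7 : y i = 0 := by
        rcases hLC i with h | ⟨e, he, -⟩
        · exact h.2
        · rw [h6, v.map_zero] at he
          exact absurd he.symm (zpow_pos hvsp e).ne'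
      rw [Finset.prod_eq_zero hi (by rw [h7, zero_pow h5]), mul_zero]
  · push Not at hall
    obtain ⟨α0, hα0, hne0⟩ := hall
    obtain ⟨αm, hαm, hmax⟩ := Finset.exists_max_image R.support (fun α => v (tm α)) ⟨α0, hα0⟩
    have hμ : 0 < v (tm αm) := (v.pos hne0).trans_le (hmax α0 hα0)
    -- exponents
    have hex : ∀ i, ∃ e : ℤ, z i ≠ 0 → v (z i) = v sp ^ e ∧ y i = r (z i * sp ^ (-e)) := by
      intro i
      rcases hLC i with h | ⟨e, he, he'⟩
      · exact ⟨0, fun h' => absurd h.1 h'⟩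
      · exact ⟨e, fun _ => ⟨he, he'⟩⟩
    choose e he using hex
    set E : (M →₀ ℕ) → ℤ := fun α => 2 * (padicValInt p (R.coeff α) : ℤ) + ∑ i, (α i : ℤ) * e i
      with hE
    have hkey : ∀ α : M →₀ ℕ, tm α * sp ^ (-E α) =
        ((upart p (R.coeff α) : ℤ) : Ω) * ∏ i, (z i * sp ^ (-e i)) ^ α i := by
      intro α
      have h1 : ((R.coeff α : ℤ) : Ω) =
          sp ^ (2 * (padicValInt p (R.coeff α) : ℤ)) * ((upart p (R.coeff α) : ℤ) : Ω) := by
        conv_lhs => rw [TOP_.upart_mul (p := p) (q := R.coeff α)]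
        push_cast
        congr 1
        rw [zpow_mul, zpow_natCast]
        congr 1
        rw [← hsp]
        norm_cast
      have h2 : sp ^ (-E α) = sp ^ (-(2 * (padicValInt p (R.coeff α) : ℤ))) *
          ∏ i, (sp ^ (-e i)) ^ α i := by
        rw [hE]
        show sp ^ (-(2 * (padicValInt p (R.coeff α) : ℤ) + ∑ i, (α i : ℤ) * e i)) = _
        rw [neg_add, zpow_add₀ hsp0, TOP_.zsum hsp0 Finset.univ]
      rw [htm]
      show ((R.coeff α : ℤ) : Ω) * (∏ i, z i ^ α i) * sp ^ (-E α) = _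
      rw [h2, h1]
      simp only [mul_pow, Finset.prod_mul_distrib]
      have h3 : sp ^ (2 * (padicValInt p (R.coeff α) : ℤ)) *
        sp ^ (-(2 * (padicValInt p (R.coeff α) : ℤ))) = 1 := by
        rw [← zpow_add₀ hsp0, add_neg_cancel, zpow_zero]
      linear_combination ((upart p (R.coeff α) : ℤ) : Ω) * (∏ i, z i ^ α i) *
        (∏ i, (sp ^ (-e i)) ^ α i) * h3
    have hw : ∀ i, z i ≠ 0 → v (z i * sp ^ (-e i)) = 1 ∧ y i = r (z i * sp ^ (-e i)) := by
      intro i hi
      refine ⟨?_, (he i hi).2⟩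
      rw [v.map_mul, map_zpow₀, (he i hi).1, ← zpow_add₀ hvsp.ne', add_neg_cancel, zpow_zero]
    have hne : ∀ α ∈ R.support, tm α ≠ 0 → (∀ i, α i ≠ 0 → z i ≠ 0) ∧
        v ((upart p (R.coeff α) : ℤ) : Ω) = 1 := by
      intro α hα h
      refine ⟨fun i hi hzi => h ?_, ?_⟩
      · rw [htm]
        show ((R.coeff α : ℤ) : Ω) * ∏ i, z i ^ α i = 0
        rw [Finset.prod_eq_zero (Finset.mem_univ i) (by rw [hzi, zero_pow hi]), mul_zero]
      · exact na_coprime hr.na hvp (TOP_.upart_cop hp (mem_support_iff.1 hα))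
    have hfac : ∀ α ∈ R.support, tm α ≠ 0 → ∀ i, v ((z i * sp ^ (-e i)) ^ α i) = 1 ∧
        r ((z i * sp ^ (-e i)) ^ α i) = y i ^ α i := by
      intro α hα h i
      by_cases h0 : α i = 0
      · rw [h0, pow_zero, pow_zero]
        exact ⟨v.map_one, hr.one⟩
      · have h1 := hw i ((hne α hα h).1 i h0)
        refine ⟨by rw [v.map_pow, h1.1, one_pow], ?_⟩
        rw [hr.pow h1.1.le, h1.2]
    have hval : ∀ α ∈ R.support, tm α ≠ 0 → v (tm α * sp ^ (-E α)) = 1 ∧
        r (tm α * sp ^ (-E α)) = ((upart p (R.coeff α) : ℤ) : k) * ∏ i, y i ^ α i := by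
      intro α hα h
      have h1 : v (∏ i, (z i * sp ^ (-e i)) ^ α i) = 1 := by
        rw [map_prod]
        exact Finset.prod_eq_one fun i _ => (hfac α hα h i).1
      rw [hkey]
      refine ⟨by rw [v.map_mul, (hne α hα h).2, h1, one_mul], ?_⟩
      rw [hr.mul _ _ (hne α hα h).2.le h1.le, hr.int, hr.prod _ _ fun i _ => (hfac α hα h i).1.le]
      congr 1
      exact Finset.prod_congr rfl fun i _ => (hfac α hα h i).2
    have hvE : ∀ α ∈ R.support, tm α ≠ 0 → v (tm α) = v sp ^ E α := by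
      intro α hα h
      have h1 := (hval α hα h).1
      rw [v.map_mul, map_zpow₀, zpow_neg] at h1
      have h2 : v sp ^ E α ≠ 0 := (zpow_pos hvsp _).ne'
      field_simp at h1
      exact h1
    have hm0 : tm αm ≠ 0 := fun h => by rw [h, v.map_zero] at hμ; exact lt_irrefl _ hμ
    have hμE := hvE αm hαm hm0
    refine ⟨R.support.filter fun α => v (tm α) = v (tm αm), Finset.filter_subset _ _,
      ⟨αm, Finset.mem_filter.2 ⟨hαm, rfl⟩⟩, ?_⟩
    have hB : ∀ α ∈ R.support, v (tm α) = v (tm αm) → tm α ≠ 0 ∧ E α = E αm := by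
      intro α hα h
      have h0 : tm α ≠ 0 := fun h' => by
        rw [h', v.map_zero] at h
        exact hμ.ne h
      refine ⟨h0, hinj ?_⟩
      show v sp ^ E α = v sp ^ E αm
      rw [← hvE α hα h0, ← hμE, h]
    have hle : ∀ α ∈ R.support, v (tm α * sp ^ (-E αm)) ≤ 1 := by
      intro α hα
      rw [v.map_mul, map_zpow₀, zpow_neg, ← hμE]
      rw [← div_eq_mul_inv, div_le_one hμ]
      exact hmax α hα
    have h0 : ∑ α ∈ R.support, tm α * sp ^ (-E αm) = 0 := by
      rw [← Finset.sum_mul, hsum, zero_mul]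
    have h1 := hr.sum R.support (fun α => tm α * sp ^ (-E αm)) hle
    rw [h0, hr.zero] at h1
    rw [Finset.sum_filter]
    refine Eq.trans (Finset.sum_congr rfl fun α hα => ?_) h1.symm
    split_ifs with h
    · obtain ⟨h2, h3⟩ := hB α hα h
      show _ = r (tm α * sp ^ (-E αm))
      rw [← h3, (hval α hα h2).2]
    · symm
      rw [hr.ker _ (hle α hα), v.map_mul, map_zpow₀, zpow_neg, ← hμE, ← div_eq_mul_inv,
        div_lt_one hμ]
      exact lt_of_le_of_ne (hmax α hα) h

end PKT
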