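import Pool.Agent.PKS.All
import Pool.Agent.PKT.SEC
import Pool.Agent.PKT.BSE3
import Pool.Agent.PKT.DEP
import Pool.Agent.PKT.TOP
import Pool.Agent.PKT.CTL
import Pool.Agent.PKT.RATL
import Pool.Agent.PKT.FRB2
import Pool.Agent.PKT.JLC
import Pool.Agent.PKT.DAT2
import Pool.Agent.PKT.ELI3
import Pool.Agent.PKT.FIN3

/-! Assembly of project PKT. -/

set_option autoImplicit false

namespace PKT

theorem all_BSE3 : T_BSE3 := p_BSE3 (PKS.p_BSE PKS.p_SIZ)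
theorem all_RATL : T_RATL := p_RATL p_DEP p_TOP p_CTL
theorem all_FRB2 : T_FRB2 := p_FRB2 PKE.p_FRB
theorem all_JLC : T_JLC := p_JLC all_RATL all_FRB2 PKS.p_VAL PKS.all_RS2
theorem all_DAT2 : T_DAT2 := p_DAT2 all_JLC PKE.p_ECH PKS.p_UNQ PKS.p_VAL
theorem all_ELI3 : T_ELI3 := p_ELI3 (PKS.p_ELI2 PKD.p_NFB)
theorem all_CRT : T_CRT :=
  p_CRT PKS.all_REL2 PKS.p_WPV PKS.p_VAL all_BSE3 PKS.p_PLT p_SEC PKS.p_SIZ all_DAT2 all_ELI3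
    PKS.p_DEG PKD.p_CNT PKD.p_EXP PKD.p_ALM PKD.p_EMB
theorem all_FIT : T_FIT := p_FIT all_CRT PKE.all_SV3

end PKT
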