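import Pool.Agent.PKT.Targets
import Pool.Agent.PKS.PLS
import Pool.Agent.PKD.RedLem

/-! Everything at one place: from a point of the base over `Ω` to the residue field. -/

set_option autoImplicit false
set_option maxHeartbeats 4000000

namespace PKT

open MvPolynomial RD PKD PKS

namespace PLS3_

/-- the section as a homomorphism of the unit group -/
theorem exists_hom (hSEC : T_SEC) {Ω : Type} [Field Ω] [IsAlgClosed Ω] (v : AbsoluteValue Ω ℝ)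
    (sp : Ωˣ) (hsp1 : v (sp : Ω) < 1) :
    ∃ (s : ℝ → Ω) (f : Ωˣ →* Ωˣ), (∀ u : Ωˣ, (f u : Ω) = s (v (u : Ω))) ∧ f sp = sp ∧
      (∀ u : Ωˣ, v (f u : Ω) = v (u : Ω)) ∧ s 1 = 1 ∧
      ∀ u u' : Ωˣ, v (u : Ω) = v (u' : Ω) → f u = f u' := by
  obtain ⟨s, h1, h2, h3⟩ := hSEC Ω v sp sp.ne_zero hsp1
  have hne : ∀ u : Ωˣ, s (v (u : Ω)) ≠ 0 := by
    intro u h0
    have h4 := h2 u u.ne_zero
    rw [h0, v.map_zero] at h4
    exact (v.pos u.ne_zero).ne h4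
  have hs1 : s 1 = 1 := by
    have h4 := h3 1 1 one_ne_zero one_ne_zero
    rw [v.map_one, one_mul] at h4
    have h5 : s 1 ≠ 0 := by
      have := hne 1
      rwa [Units.val_one, v.map_one] at this
    have h6 : s 1 * (s 1 - 1) = 0 := by linear_combination -h4
    rcases mul_eq_zero.1 h6 with h | h
    · exact absurd h h5
    · exact sub_eq_zero.1 h
  let f : Ωˣ →* Ωˣ :=
    { toFun := fun u => Units.mk0 (s (v (u : Ω))) (hne u)
      map_one' := by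
        apply Units.ext
        simp [hs1]
      map_mul' := fun u u' => by
        apply Units.ext
        simp only [Units.val_mk0, Units.val_mul]
        rw [v.map_mul, h3 _ _ u.ne_zero u'.ne_zero] }
  have hf : ∀ u : Ωˣ, (f u : Ω) = s (v (u : Ω)) := fun u => rfl
  refine ⟨s, f, hf, ?_, ?_, hs1, ?_⟩
  · apply Units.ext
    rw [hf, h1]
  · intro u
    rw [hf, h2 u u.ne_zero]
  · intro u u' h
    apply Units.ext
    rw [hf, hf, h]

end PLS3_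

open PLS3_

theorem place3 (hBSE : T_BSE3) (hPLT : PKS.T_PLT) (hSEC : T_SEC) (hSIZ : PKS.T_SIZ) {Ω k : Type}
    [Field Ω] [CharZero Ω] [IsAlgClosed Ω] [DecidableEq Ω] [Field k] {p : ℕ}
    {v : AbsoluteValue Ω ℝ} {r : Ω → k} (hr : Red v r) (hp : p.Prime) (hp5 : 5 ≤ p)
    (hvp : v (p : Ω) < 1) {sp : Ω} (hsp : sp ^ 2 = (p : Ω)) {d n m : ℕ} {g : Fin m → ℕ}
    (w : Fin m → ℕ) (D : (Σ k, Fin (g k)) → ℕ) (hD : ∀ i, 1 ≤ D i ∧ w i.1 ≤ D i)
    (V : (Σ k, Fin (g k)) → Finset (Fin d)) (W : Fin n → Finset (Fin d)) (ρ : Fin n → ℕ)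
    (b : Fin n → ℕ → MvPolynomial (Fin d) Ω) (A B : Fin m → MvPolynomial (Fin d ⊕ Fin n) Ω)
    (hb : ∀ j l, l < ρ j → (b j l).totalDegree ≤ ρ j - l ∧ (b j l).vars ⊆ W j ∧
      ∀ t, v ((b j l).coeff t) ≤ 1)
    (hA : ∀ κ, (A κ).totalDegree ≤ 2 * w κ ∧
      (∀ i : Fin (g κ), ∀ t ∈ (A κ).vars, Al W (V ⟨κ, i⟩) t) ∧ ∀ t, v ((A κ).coeff t) ≤ 1)
    (hB : ∀ κ, (B κ).totalDegree ≤ 3 * w κ ∧
      (∀ i : Fin (g κ), ∀ t ∈ (B κ).vars, Al W (V ⟨κ, i⟩) t) ∧ ∀ t, v ((B κ).coeff t) ≤ 1)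
    (β : Ω) (f : (Σ k, Fin (g k)) → MvPolynomial (Fin d ⊕ Fin n) Ω) (hβ0 : β ≠ 0)
    (hβ : v β ≤ v (p : Ω))
    (hf : ∀ i, (f i).totalDegree ≤ D i ∧ (∀ t ∈ (f i).vars, Al W (V i) t) ∧
      ∀ α, v (β * (f i).coeff α) ≤ 1)
    (x : Fin d → Ω) (s : Fin n → Ω) (hon : OnBase ρ b x s)
    (P : (κ : Fin m) → Fin (g κ) →
      (curve 0 (eval (Sum.elim x s) (A κ)) (eval (Sum.elim x s) (B κ))).Point)
    (hP : ∀ κ i, ∃ y h,
      P κ i = WeierstrassCurve.Affine.Point.some (eval (Sum.elim x s) (f ⟨κ, i⟩)) y h) :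
    ∃ (R : Fin m → ℝ) (S : Finset (Σ k, Fin (g k))) (π : (Σ k, Fin (g k)) → Ω) (T : Typ d)
      (x' : Fin d → k) (s' : Fin n → k) (h : (Σ k, Fin (g k)) → k),
      (∀ κ, Cx p v (R κ) (eval (Sum.elim x s) (A κ)) (eval (Sum.elim x s) (B κ))) ∧
      (∀ i, π i ≠ 0) ∧
      (∀ i j (e : ℤ), v (π i) = v (π j) * v sp ^ e → π i = π j * sp ^ e) ∧
      (∀ κ i, ⟨κ, i⟩ ∉ S → InE v (R κ) (P κ i) ∧ (R κ) ^ 2 * v (zz (P κ i)) ^ 4 < v (p : Ω) ∧
        v (zz (P κ i)) = v (π ⟨κ, i⟩) ∧ h ⟨κ, i⟩ = r (zz (P κ i) / π ⟨κ, i⟩)) ∧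
      Tok T ∧ OnBase ρ (bt r ρ b W T) x' s' ∧ (∀ V Y m, T V = some Y → m ∈ Y → x' m ≠ 0) ∧
      (∀ i ∈ S, ∑ α ∈ (f i).support, r (β * (f i).coeff α) *
        eval (Sum.elim x' s') (utf k W T (V i) (D i) α) = 0) ∧
      (∀ i, i ∉ S → h i ^ 2 * ∑ α ∈ (f i).support, r (β * (f i).coeff α) *
        eval (Sum.elim x' s') (utf k W T (V i) (D i) α) = 1) := by
  classical
  have hvp0 : 0 < v (p : Ω) := v.pos (Nat.cast_ne_zero.2 hp.ne_zero)
  have hsp0 : sp ≠ 0 := by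
    rintro rfl
    rw [zero_pow two_ne_zero] at hsp
    exact (Nat.cast_ne_zero.2 hp.ne_zero) hsp.symm
  have hvsp2 : v sp ^ 2 = v (p : Ω) := by rw [← v.map_pow, hsp]
  have hvsp1 : v sp < 1 := by
    by_contra hcon
    push Not at hcon
    have : 1 ≤ v sp ^ 2 := one_le_pow₀ hcon
    rw [hvsp2] at this
    linarith
  -- the square root of β
  obtain ⟨η, hη⟩ := IsAlgClosed.exists_pow_nat_eq β (n := 2) (by norm_num)
  have hη0 : η ≠ 0 := by
    rintro rfl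
    rw [zero_pow two_ne_zero] at hη
    exact hβ0 hη.symm
  have hvη : 0 < v η := v.pos hη0
  obtain ⟨sec, F, hF, hFsp, hFv, hsec1, hFe⟩ := exists_hom hSEC v (Units.mk0 sp hsp0) hvsp1
  -- sizes
  choose M hM using fun i => PLS_.exists_sz v x (V i)
  have hex : ∀ i, ∃ l : Ωˣ, v (l : Ω) ^ 2 = M i ∧ ((F l : Ω)) ^ 2 = sec (M i) := by
    intro i
    have h1 : ∃ z : Ω, z ≠ 0 ∧ v z = M i := by
      rcases (hM i).2.2 with h | ⟨m', -, h⟩
      · exact ⟨1, one_ne_zero, by rw [v.map_one, h]⟩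
      · refine ⟨x m', ?_, h⟩
        intro h0
        rw [h0, v.map_zero] at h
        have := (hM i).1
        linarith
    obtain ⟨z, hz0, hz⟩ := h1
    obtain ⟨l, hl⟩ := IsAlgClosed.exists_pow_nat_eq z (n := 2) (by norm_num)
    have hl0 : l ≠ 0 := by
      rintro rfl
      rw [zero_pow two_ne_zero] at hl
      exact hz0 hl.symm
    refine ⟨Units.mk0 l hl0, ?_, ?_⟩
    · rw [Units.val_mk0, ← v.map_pow, hl, hz]
    · have h2 : ((F (Units.mk0 l hl0) : Ω)) ^ 2 = (F ((Units.mk0 l hl0) ^ 2) : Ω) := by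
        rw [map_pow, Units.val_pow_eq_pow_val]
      rw [h2, hF, Units.val_pow_eq_pow_val, Units.val_mk0, hl, hz]
  choose l hl1 hl2 using hex
  set π : (Σ k, Fin (g k)) → Ω := fun i => η / (F (l i ^ D i) : Ω) with hπ
  have hπ0 : ∀ i, π i ≠ 0 := fun i => div_ne_zero hη0 (Units.ne_zero _)
  have hϖv : ∀ i, v (sec (M i)) = M i := by
    intro i
    rw [← hl2, v.map_pow, hFv, hl1]
  have hϖD : ∀ i, π i ^ 2 * sec (M i) ^ D i = β := by
    intro i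
    have h1 : ((F (l i ^ D i) : Ω)) ^ 2 = sec (M i) ^ D i := by
      rw [map_pow, Units.val_pow_eq_pow_val, ← hl2, ← pow_mul, ← pow_mul, mul_comm]
    have h2 : sec (M i) ^ D i ≠ 0 := by
      rw [← h1]
      exact pow_ne_zero _ (Units.ne_zero _)
    rw [hπ]
    simp only
    rw [div_pow, h1, hη, div_mul_cancel₀ _ h2]
  obtain ⟨T, x', s', hTok, hon', hx', hfun⟩ := hBSE Ω k v r hr sec hsec1 d n W ρ b hb x s hon
    (fun m' hm => by
      have hne : x m' ≠ 0 := by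
        intro h0
        rw [h0, v.map_zero] at hm
        linarith
      have h1 := hFv (Units.mk0 (x m') hne)
      rw [hF] at h1
      simpa using h1)
  have hsupp : ∀ i, (C β * f i).support = (f i).support := by
    intro i
    ext α
    rw [mem_support_iff, mem_support_iff, coeff_C_mul]
    constructor
    · intro h1 h2
      exact h1 (by rw [h2, mul_zero])
    · intro h1
      exact mul_ne_zero hβ0 h1
  have hG := fun i => hfun (V i) (M i) (hM i) (D i) (C β * f i)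
    (le_trans (totalDegree_mul _ _) (by rw [totalDegree_C, zero_add]; exact (hf i).1))
    (fun t ht => by
      refine (hf i).2.1 t ?_
      rw [mem_vars] at ht ⊢
      rwa [hsupp i] at ht)
    (fun α => by rw [coeff_C_mul]; exact (hf i).2.2 α)
  have hG1 : ∀ i, v (β * eval (Sum.elim x s) (f i) / sec (M i) ^ D i) ≤ 1 := by
    intro i
    have := (hG i).1
    rwa [map_mul, eval_C] at this
  have hG2 : ∀ i, r (β * eval (Sum.elim x s) (f i) / sec (M i) ^ D i) =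
      ∑ α ∈ (f i).support, r (β * (f i).coeff α) *
        eval (Sum.elim x' s') (utf k W T (V i) (D i) α) := by
    intro i
    have := (hG i).2
    rw [map_mul, eval_C, hsupp i] at this
    rw [this]
    exact Finset.sum_congr rfl fun α _ => by rw [coeff_C_mul]
  -- the curves
  set V0 : Fin m → Finset (Fin d) := fun κ => Finset.univ.filter fun m' => ∀ i, m' ∈ V ⟨κ, i⟩
    with hV0
  choose M0 hM0 using fun κ => PLS_.exists_sz v x (V0 κ)
  have hV0V : ∀ κ i, V0 κ ⊆ V ⟨κ, i⟩ := by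
    intro κ i m' hm
    rw [hV0] at hm
    simp only [Finset.mem_filter] at hm
    exact hm.2 i
  have hM0M : ∀ κ i, M0 κ ≤ M ⟨κ, i⟩ := by
    intro κ i
    rcases (hM0 κ).2.2 with h | ⟨m', hm, h⟩
    · rw [h]; exact (hM ⟨κ, i⟩).1
    · rw [← h]; exact (hM ⟨κ, i⟩).2.1 m' (hV0V κ i hm)
  have hAl : ∀ κ t, (∀ i, Al W (V ⟨κ, i⟩) t) → Al W (V0 κ) t := by
    rintro κ (m' | j) ht
    · show m' ∈ V0 κ
      rw [hV0]
      simp only [Finset.mem_filter]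
      exact ⟨Finset.mem_univ _, fun i => ht i⟩
    · intro m' hm
      rw [hV0]
      simp only [Finset.mem_filter]
      exact ⟨Finset.mem_univ _, fun i => (ht i) hm⟩
  have hcx : ∀ κ, Cx p v (M0 κ ^ w κ) (eval (Sum.elim x s) (A κ)) (eval (Sum.elim x s) (B κ)) := by
    intro κ
    obtain ⟨-, hsz⟩ := hSIZ Ω v hr.na d n W ρ b hb x s hon (V0 κ) (M0 κ) (hM0 κ)
    have hA4 : v (eval (Sum.elim x s) (A κ)) ≤ M0 κ ^ (2 * w κ) :=
      hsz (A κ) (2 * w κ) (hA κ).1 (fun t ht => hAl κ t fun i => (hA κ).2.1 i t ht) (hA κ).2.2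
    have hB6 : v (eval (Sum.elim x s) (B κ)) ≤ M0 κ ^ (3 * w κ) :=
      hsz (B κ) (3 * w κ) (hB κ).1 (fun t ht => hAl κ t fun i => (hB κ).2.1 i t ht) (hB κ).2.2
    refine ⟨hr.na, hp, hp5, hvp, one_le_pow₀ (hM0 κ).1, ?_, ?_⟩
    · rw [← pow_mul, mul_comm (w κ) 2]; exact hA4
    · rw [← pow_mul, mul_comm (w κ) 3]; exact hB6
  set S : Finset (Σ k, Fin (g k)) := Finset.univ.filter fun i =>
    v (β * eval (Sum.elim x s) (f i) / sec (M i) ^ D i) < 1 with hS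
  have key : ∀ κ i, (⟨κ, i⟩ : Σ k, Fin (g k)) ∉ S → InE v (M0 κ ^ w κ) (P κ i) ∧
      (M0 κ ^ w κ) ^ 2 * v (zz (P κ i)) ^ 4 < v (p : Ω) ∧ v (zz (P κ i)) = v (π ⟨κ, i⟩) ∧
      r (zz (P κ i) / π ⟨κ, i⟩) ^ 2 *
        r (β * eval (Sum.elim x s) (f ⟨κ, i⟩) / sec (M ⟨κ, i⟩) ^ D ⟨κ, i⟩) = 1 := by
    intro κ i hi
    have hi1 : v (β * eval (Sum.elim x s) (f ⟨κ, i⟩) / sec (M ⟨κ, i⟩) ^ D ⟨κ, i⟩) = 1 := by
      rw [hS, Finset.mem_filter] at hi
      push Not at hi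
      exact le_antisymm (hG1 _) (hi (Finset.mem_univ _))
    have hϖi := hϖv ⟨κ, i⟩
    refine hPLT Ω k p v r hr hp hp5 hvp (w κ) (D ⟨κ, i⟩) (hD ⟨κ, i⟩).2 β (sec (M ⟨κ, i⟩))
      (π ⟨κ, i⟩) (eval (Sum.elim x s) (f ⟨κ, i⟩)) _ _ (M0 κ ^ w κ) hβ0 hβ ?_ ?_
      (hϖD ⟨κ, i⟩) (hcx κ) ?_ hi1 (P κ i) (hP κ i)
    · intro h0
      rw [h0, v.map_zero] at hϖi
      have := (hM ⟨κ, i⟩).1
      linarith
    · rw [hϖi]; exact (hM ⟨κ, i⟩).1
    · rw [hϖi]; exact pow_le_pow_left₀ (by linarith [(hM0 κ).1]) (hM0M κ i) (w κ)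
  refine ⟨fun κ => M0 κ ^ w κ, S, π, T, x', s', fun i => r (zz (P i.1 i.2) / π i), hcx, hπ0, ?_, ?_,
    hTok, hon', hx', ?_, ?_⟩
  · intro i j e he
    have h1 : v (π i) = v η / v ((l i ^ D i : Ωˣ) : Ω) := by
      rw [hπ]; simp only; rw [map_div₀, hFv]
    have h2 : v (π j) = v η / v ((l j ^ D j : Ωˣ) : Ω) := by
      rw [hπ]; simp only; rw [map_div₀, hFv]
    rw [h1, h2] at he
    have h3 : 0 < v ((l i ^ D i : Ωˣ) : Ω) := v.pos (Units.ne_zero _)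
    have h4 : 0 < v ((l j ^ D j : Ωˣ) : Ω) := v.pos (Units.ne_zero _)
    have h5 : v ((l j ^ D j : Ωˣ) : Ω) =
        v (((l i ^ D i * (Units.mk0 sp hsp0) ^ e : Ωˣ)) : Ω) := by
      rw [Units.val_mul, Units.val_zpow_eq_zpow_val, Units.val_mk0, v.map_mul, map_zpow₀]
      have h6 := hvη.ne'
      have h7 := h3.ne'
      have h8 := h4.ne'
      generalize v ((l i ^ D i : Ωˣ) : Ω) = y1 at *
      generalize v ((l j ^ D j : Ωˣ) : Ω) = y2 at *
      generalize v sp ^ e = y3 at *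
      generalize v η = y4 at *
      field_simp at he
      linear_combination he
    have h6 := hFe _ _ h5
    rw [map_mul, map_zpow, hFsp] at h6
    have h7 : ((F (l j ^ D j) : Ω)) = (F (l i ^ D i) : Ω) * sp ^ e := by
      rw [h6, Units.val_mul, Units.val_zpow_eq_zpow_val, Units.val_mk0]
    show η / (F (l i ^ D i) : Ω) = η / (F (l j ^ D j) : Ω) * sp ^ e
    rw [h7]
    have h8 : ((F (l i ^ D i) : Ω)) ≠ 0 := Units.ne_zero _
    have h9 : sp ^ e ≠ 0 := zpow_ne_zero _ hsp0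
    field_simp
  · intro κ i hi
    obtain ⟨h1, h2, h3, -⟩ := key κ i hi
    exact ⟨h1, h2, h3, rfl⟩
  · intro i hi
    rw [← hG2 i]
    rw [hS, Finset.mem_filter] at hi
    exact (hr.ker _ (hG1 i)).2 hi.2
  · rintro ⟨κ, i⟩ hi
    rw [← hG2 ⟨κ, i⟩]
    exact (key κ i hi).2.2.2

end PKT
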