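import Pool.Agent.PKT.PLS3
import Pool.Agent.PKE.STP
import Pool.Agent.RD.DIM

/-! From a bad multisection to the residue fields of all the embeddings. -/

set_option autoImplicit false
set_option maxHeartbeats 4000000

namespace PKT

open MvPolynomial RD PKD PKS

/-- The multisection given by the polynomials `f` is bad: over some point `(p, s)` of the base the
points `P k i` with abscissas `f_(k, i)(p, s)` satisfy `d + 1` independent relations (`e k` of them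
among the points `P k` of the `k`-th elliptic scheme). -/
def Bad3 {Ω : Type} [Field Ω] [DecidableEq Ω] {d n m : ℕ} {g : Fin m → ℕ} (ρ : Fin n → ℕ)
    (b : Fin n → ℕ → MvPolynomial (Fin d) Ω) (A B : Fin m → MvPolynomial (Fin d ⊕ Fin n) Ω)
    (f : (Σ k, Fin (g k)) → MvPolynomial (Fin d ⊕ Fin n) Ω) : Prop :=
  ∃ (p : Fin d → Ω) (s : Fin n → Ω), OnBase ρ b p s ∧ ∃ e : Fin m → ℕ, ∑ k, e k = d + 1 ∧
    ∃ P : (k : Fin m) → Fin (g k) →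
        (curve 0 (eval (Sum.elim p s) (A k)) (eval (Sum.elim p s) (B k))).Point,
      (∀ k i, ∃ y h,
        P k i = WeierstrassCurve.Affine.Point.some (eval (Sum.elim p s) (f ⟨k, i⟩)) y h) ∧
      ∀ k, IntRel _ (e k) (P k) ∨ CMRel _ (e k) (P k)

/-- the block matrix made of the leading coefficients `Dd`, for the classes `cl`, `cs`, the sets `S`,
`J` and the set `Z` of the pairs of comparable entries -/
def flat2 {K : Type} [Field K] {m : ℕ} {g : Fin m → ℕ} (Dd : (k : Fin m) → Bool → Bool → Dt (g k) K)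
    (cl : Fin m → Bool) (cs : Bool) (S J : Finset (Σ k, Fin (g k)))
    (Z : Finset ((Σ k, Fin (g k)) × (Σ k, Fin (g k)))) (x y : Σ k, Fin (g k)) : K :=
  if h : y.1 = x.1 then (if (x, y) ∈ Z then
    -(Dd x.1 (cl x.1) cs (PKE.sec S x.1) (PKE.sec J x.1) x.2 (h ▸ y.2)) else 0) else 0

namespace STP3_

theorem flat2_same {K : Type} [Field K] {m : ℕ} {g : Fin m → ℕ}
    (Dd : (k : Fin m) → Bool → Bool → Dt (g k) K) (cl : Fin m → Bool) (cs : Bool)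
    (S J : Finset (Σ k, Fin (g k))) (Z : Finset ((Σ k, Fin (g k)) × (Σ k, Fin (g k))))
    (k : Fin m) (i i' : Fin (g k)) :
    flat2 Dd cl cs S J Z ⟨k, i⟩ ⟨k, i'⟩ =
      if ((⟨k, i⟩ : Σ k, Fin (g k)), (⟨k, i'⟩ : Σ k, Fin (g k))) ∈ Z then
        -(Dd k (cl k) cs (PKE.sec S k) (PKE.sec J k) i i') else 0 := by
  unfold flat2
  rw [dif_pos rfl]

theorem flat2_ne {K : Type} [Field K] {m : ℕ} {g : Fin m → ℕ}
    (Dd : (k : Fin m) → Bool → Bool → Dt (g k) K) (cl : Fin m → Bool) (cs : Bool)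
    (S J : Finset (Σ k, Fin (g k))) (Z : Finset ((Σ k, Fin (g k)) × (Σ k, Fin (g k))))
    (x y : Σ k, Fin (g k)) (h : y.1 ≠ x.1) : flat2 Dd cl cs S J Z x y = 0 := by
  unfold flat2
  rw [dif_neg h]

end STP3_

open STP3_ PKE.STP_

theorem stp3 (hREL : PKS.T_REL2) (hWPV : PKS.T_WPV) (hVAL : PKS.T_VAL) (hBSE : T_BSE3)
    (hPLT : PKS.T_PLT) (hSEC : T_SEC) (hSIZ : PKS.T_SIZ) {Ω kk : Type} [Field Ω]
    [CharZero Ω] [IsAlgClosed Ω] [DecidableEq Ω] [Field kk] {p : ℕ} {v : AbsoluteValue Ω ℝ}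
    {r : Ω → kk} (hr : Red v r) (hp : p.Prime) (hp5 : 5 ≤ p) (hvp : v (p : Ω) < 1) {sp : Ω}
    (hsp : sp ^ 2 = (p : Ω)) {d n m N : ℕ} {g : Fin m → ℕ}
    (w : Fin m → ℕ) (D : (Σ k, Fin (g k)) → ℕ) (hD : ∀ i, 1 ≤ D i ∧ w i.1 ≤ D i)
    (σ : Fin N → Ω →+* Ω)
    (Ds : (κ : Fin m) → ℕ → Finset (Bool → Bool → Dt (g κ) kk))
    (hDs : ∀ (κ : Fin m) (e : ℕ) (a : Ω) (t n : ℤ), a ^ 2 = t * a - n →
      ∀ U : Submodule (IntermediateField.adjoin ℚ {a})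
        (Fin (g κ) → IntermediateField.adjoin ℚ {a}),
        Module.finrank (IntermediateField.adjoin ℚ {a}) U = e →
        ∃ Dd ∈ Ds κ e, ∀ (σ : Ω →+* Ω) (S J : Finset (Fin (g κ)))
          (τ : Fin (g κ) → Fin (g κ) → IntermediateField.adjoin ℚ {a}),
          (∀ j ∈ J, τ j ∈ U ∧ τ j j = 1 ∧ (∀ j' ∈ J, j' ≠ j → τ j j' = 0) ∧
            ∀ i ∈ S, τ j i = 0) →
          J.card = Module.finrank (IntermediateField.adjoin ℚ {a})
            (U ⊓ (⨅ i ∈ S, LinearMap.ker (LinearMap.proj i :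
              (Fin (g κ) → IntermediateField.adjoin ℚ {a}) →ₗ[IntermediateField.adjoin ℚ {a}]
                IntermediateField.adjoin ℚ {a})) :
              Submodule (IntermediateField.adjoin ℚ {a})
                (Fin (g κ) → IntermediateField.adjoin ℚ {a})) →
          ∀ j ∈ J, ∀ (i : Fin (g κ)) (e' : ℤ), v (σ (τ j i : Ω)) = v (σ sp) ^ e' →
            r (σ ((τ j i : Ω) * sp ^ (-e'))) = Dd (decide (σ a = a)) (decide (σ sp = sp)) S J j i)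
    (V : (Σ k, Fin (g k)) → Finset (Fin d)) (W : Fin n → Finset (Fin d)) (ρ : Fin n → ℕ)
    (b : Fin n → ℕ → MvPolynomial (Fin d) Ω) (A B : Fin m → MvPolynomial (Fin d ⊕ Fin n) Ω)
    (hb : ∀ j l, l < ρ j → (b j l).totalDegree ≤ ρ j - l ∧ (b j l).vars ⊆ W j)
    (hbi : ∀ i j l, l < ρ j → ∀ t, v (σ i ((b j l).coeff t)) ≤ 1)
    (hA : ∀ κ, (A κ).totalDegree ≤ 2 * w κ ∧
      (∀ i : Fin (g κ), ∀ t ∈ (A κ).vars, Al W (V ⟨κ, i⟩) t))
    (hB : ∀ κ, (B κ).totalDegree ≤ 3 * w κ ∧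
      (∀ i : Fin (g κ), ∀ t ∈ (B κ).vars, Al W (V ⟨κ, i⟩) t))
    (hAB : ∀ j κ t, v (σ j ((A κ).coeff t)) ≤ 1 ∧ v (σ j ((B κ).coeff t)) ≤ 1)
    (β : Ω) (f : (Σ k, Fin (g k)) → MvPolynomial (Fin d ⊕ Fin n) Ω) (hβ0 : β ≠ 0)
    (hβ : ∀ j, v (σ j β) ≤ v (p : Ω))
    (hf : ∀ i, (f i).totalDegree ≤ D i ∧ ∀ t ∈ (f i).vars, Al W (V i) t)
    (hfi : ∀ j i α, v (σ j (β * (f i).coeff α)) ≤ 1)
    (hbad : Bad3 ρ b A B f) :
    ∃ (e : Fin m → ℕ) (De : (κ : Fin m) → Bool → Bool → Dt (g κ) kk),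
      (∀ κ, e κ ≤ g κ) ∧ ∑ κ, e κ = d + 1 ∧ (∀ κ, De κ ∈ Ds κ (e κ)) ∧
      ∀ j : Fin N, ∃ (cl : Fin m → Bool) (cs : Bool) (S J : Finset (Σ k, Fin (g k)))
        (Z : Finset ((Σ k, Fin (g k)) × (Σ k, Fin (g k)))), Disjoint S J ∧
        d + 1 ≤ S.card + J.card ∧
        ∃ (T : Typ d) (x' : Fin d → kk) (s' : Fin n → kk) (h : (Σ k, Fin (g k)) → kk), Tok T ∧
          OnBase ρ (bt (fun x => r (σ j x)) ρ b W T) x' s' ∧
          (∀ V Y m, T V = some Y → m ∈ Y → x' m ≠ 0) ∧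
          (∀ i ∈ S, ∑ α ∈ (f i).support, r (σ j (β * (f i).coeff α)) *
            eval (Sum.elim x' s') (utf kk W T (V i) (D i) α) = 0) ∧
          (∀ i, i ∉ S → h i ^ 2 * ∑ α ∈ (f i).support, r (σ j (β * (f i).coeff α)) *
            eval (Sum.elim x' s') (utf kk W T (V i) (D i) α) = 1) ∧
          ∀ i ∈ J, h i = ∑ i' ∈ (S ∪ J)ᶜ, flat2 De cl cs S J Z i i' * h i' := by
  classical
  obtain ⟨x, s, hon, e, he, P, hP, hrel⟩ := hbad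
  choose a t n' ha U hU hR using fun κ => hREL Ω _ _ (g κ) (e κ) (P κ) (hrel κ)
  choose De hDe1 hDe2 using fun κ => hDs κ (e κ) (a κ) (t κ) (n' κ) (ha κ) (U κ) (hU κ)
  have heg : ∀ κ, e κ ≤ g κ := by
    intro κ
    rw [← hU κ]
    refine (Submodule.finrank_le _).trans ?_
    rw [Module.finrank_fin_fun]
  refine ⟨e, De, heg, he, hDe1, fun j => ?_⟩
  -- everything at one place
  obtain ⟨R, S, π, T, x', s', h, hCx, hπ, hsc, hE, hTok, hbase, hx', hSeq, hWeq⟩ :=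
    place3 hBSE hPLT hSEC hSIZ (v := v.comp (σ j).injective)
    (r := fun x => r (σ j x)) (hr.comp (σ j)) hp hp5
    (by change v (σ j (p : Ω)) < 1; rw [map_natCast]; exact hvp) hsp w D hD V W ρ b A B
    (fun i l hl => ⟨(hb i l hl).1, (hb i l hl).2, fun t => hbi j i l hl t⟩)
    (fun κ => ⟨(hA κ).1, (hA κ).2, fun t => (hAB j κ t).1⟩)
    (fun κ => ⟨(hB κ).1, (hB κ).2, fun t => (hAB j κ t).2⟩) β f hβ0
    (by change v (σ j β) ≤ v (σ j (p : Ω)); rw [map_natCast]; exact hβ j)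
    (fun i => ⟨(hf i).1, (hf i).2, fun α => hfi j i α⟩) x s hon P hP
  set vj : AbsoluteValue Ω ℝ := v.comp (σ j).injective with hvj
  have hrj : Red vj (fun x => r (σ j x)) := hr.comp (σ j)
  have hvje : ∀ y, vj y = v (σ j y) := fun y => rfl
  have hvπ : ∀ i, 0 < vj (π i) := fun i => vj.pos (hπ i)
  -- the pivots
  have hpiv := fun κ : Fin m => hWPV (IntermediateField.adjoin ℚ {a κ})
    (fun x : (IntermediateField.adjoin ℚ {a κ}) => vj (x : Ω)) (by simp)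
    (fun x hx => vj.pos (by
      intro h
      exact hx (Subtype.ext h)))
    (fun x y => by simp) (fun x y => hrj.na (x : Ω) (y : Ω)) (g κ)
    (fun i => vj (π ⟨κ, i⟩)) (fun i => hvπ ⟨κ, i⟩)
    (U κ ⊓ (⨅ i ∈ PKE.sec S κ, LinearMap.ker (LinearMap.proj i : (Fin (g κ) → (IntermediateField.adjoin ℚ {a κ})) →ₗ[(IntermediateField.adjoin ℚ {a κ})] (IntermediateField.adjoin ℚ {a κ}))) :
        Submodule (IntermediateField.adjoin ℚ {a κ}) (Fin (g κ) → (IntermediateField.adjoin ℚ {a κ})))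
  choose Jk τ hJ hτ using hpiv
  have hmem : ∀ κ, ∀ i ∈ Jk κ, τ κ i ∈ U κ ∧ ∀ i' ∈ PKE.sec S κ, τ κ i i' = 0 := by
    intro κ i hi
    have h1 := (hτ κ i hi).1
    rw [Submodule.mem_inf] at h1
    refine ⟨h1.1, ?_⟩
    intro i' hi'
    have h2 := h1.2
    simp only [Submodule.mem_iInf] at h2
    exact h2 i' hi'
  set J : Finset (Σ k, Fin (g k)) := Finset.univ.sigma fun κ => Jk κ with hJdef
  have hJm : ∀ (κ : Fin m) (i : Fin (g κ)), (⟨κ, i⟩ : Σ k, Fin (g k)) ∈ J ↔ i ∈ Jk κ := by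
    intro κ i
    rw [hJdef, Finset.mem_sigma]
    simp
  have hsecJ : ∀ κ, PKE.sec J κ = Jk κ := by
    intro κ
    ext i
    rw [mem_sec, hJm]
  have hdis : Disjoint S J := by
    rw [Finset.disjoint_left]
    rintro ⟨κ, i⟩ hi hi'
    rw [hJm] at hi'
    have h1 := (hτ κ i hi').2.1
    rw [(hmem κ i hi').2 i ((mem_sec S κ i).2 hi)] at h1
    exact zero_ne_one h1
  have hdim : d + 1 ≤ S.card + J.card := by
    rw [← he, hJdef, Finset.card_sigma, ← card_sec S, ← Finset.sum_add_distrib]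
    refine Finset.sum_le_sum fun κ _ => ?_
    have h1 := RD.p_DIM (IntermediateField.adjoin ℚ {a κ}) (g κ) (U κ) (PKE.sec S κ)
    rw [hU κ, ← hJ κ] at h1
    omega
  -- the comparable entries
  set Z : Finset ((Σ k, Fin (g k)) × (Σ k, Fin (g k))) := Finset.univ.filter fun q =>
    ∃ h : q.2.1 = q.1.1,
      vj (τ q.1.1 q.1.2 (h ▸ q.2.2) : Ω) * vj (π q.2) = vj (π q.1) with hZ
  have hZm : ∀ (κ : Fin m) (i i' : Fin (g κ)),
      ((⟨κ, i⟩ : Σ k, Fin (g k)), (⟨κ, i'⟩ : Σ k, Fin (g k))) ∈ Z ↔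
      vj (τ κ i i' : Ω) * vj (π ⟨κ, i'⟩) = vj (π ⟨κ, i⟩) := by
    intro κ i i'
    rw [hZ, Finset.mem_filter]
    constructor
    · rintro ⟨-, h1, h2⟩
      exact h2
    · intro h1
      exact ⟨Finset.mem_univ _, rfl, h1⟩
  refine ⟨fun κ => decide (σ j (a κ) = a κ), decide (σ j sp = sp), S, J, Z, hdis, hdim, T, x', s',
    h, hTok, hbase, hx', hSeq, hWeq, ?_⟩
  rintro ⟨κ, i⟩ hiJ
  have hi : i ∈ Jk κ := (hJm κ i).1 hiJ
  -- the relation in the block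
  have hτb : ∀ i', vj (τ κ i i' : Ω) * vj (π ⟨κ, i'⟩) ≤ vj (π ⟨κ, i⟩) :=
    fun i' => (hτ κ i hi).2.2.2 i'
  have hSn : ∀ i' : Fin (g κ), i' ∉ PKE.sec S κ → (⟨κ, i'⟩ : Σ k, Fin (g k)) ∉ S :=
    fun i' hi' hc => hi' ((mem_sec S κ i').2 hc)
  have h1 := hR κ p vj (R κ) (hCx κ) (PKE.sec S κ)
    (fun i' hi' => ⟨(hE κ i' (hSn i' hi')).1, (hE κ i' (hSn i' hi')).2.1⟩) (τ κ i) (hmem κ i hi).1
    (hmem κ i hi).2 (vj (π ⟨κ, i⟩)) (hvπ ⟨κ, i⟩) (fun i' hi' => by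
      rw [(hE κ i' (hSn i' hi')).2.2.1]
      exact hτb i')
  have hπi := hπ ⟨κ, i⟩
  have h2 : ∑ i' ∈ (PKE.sec S κ)ᶜ, ((τ κ i i' : Ω) * (π ⟨κ, i'⟩ / π ⟨κ, i⟩)) *
      (zz (P κ i') / π ⟨κ, i'⟩) =
      (∑ i' ∈ (PKE.sec S κ)ᶜ, (τ κ i i' : Ω) * zz (P κ i')) / π ⟨κ, i⟩ := by
    rw [Finset.sum_div]
    refine Finset.sum_congr rfl fun i' _ => ?_
    have := hπ ⟨κ, i'⟩
    field_simp
  have h3 : vj (∑ i' ∈ (PKE.sec S κ)ᶜ, ((τ κ i i' : Ω) * (π ⟨κ, i'⟩ / π ⟨κ, i⟩)) *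
      (zz (P κ i') / π ⟨κ, i'⟩)) < 1 := by
    rw [h2, map_div₀, div_lt_one (hvπ ⟨κ, i⟩)]
    exact h1
  have hA1 : ∀ i', vj ((τ κ i i' : Ω) * (π ⟨κ, i'⟩ / π ⟨κ, i⟩)) ≤ 1 := by
    intro i'
    rw [vj.map_mul, map_div₀, ← mul_div_assoc, div_le_one (hvπ ⟨κ, i⟩)]
    exact hτb i'
  have hB1 : ∀ i', i' ∉ PKE.sec S κ → vj (zz (P κ i') / π ⟨κ, i'⟩) ≤ 1 := by
    intro i' hi'
    rw [map_div₀, (hE κ i' (hSn i' hi')).2.2.1, div_self (hvπ ⟨κ, i'⟩).ne']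
  have hAB1 : ∀ i' ∈ (PKE.sec S κ)ᶜ, vj (((τ κ i i' : Ω) * (π ⟨κ, i'⟩ / π ⟨κ, i⟩)) *
      (zz (P κ i') / π ⟨κ, i'⟩)) ≤ 1 := by
    intro i' hi'
    rw [vj.map_mul]
    exact mul_le_one₀ (hA1 i') (vj.nonneg _) (hB1 i' (Finset.mem_compl.1 hi'))
  have h4 := (hrj.ker _ (na_sum hrj.na _ _ _ zero_le_one hAB1)).2 h3
  rw [hrj.sum _ _ hAB1] at h4
  have h5 : ∀ i' ∈ (PKE.sec S κ)ᶜ, r (σ j (((τ κ i i' : Ω) * (π ⟨κ, i'⟩ / π ⟨κ, i⟩)) *
      (zz (P κ i') / π ⟨κ, i'⟩))) =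
      r (σ j ((τ κ i i' : Ω) * (π ⟨κ, i'⟩ / π ⟨κ, i⟩))) * h ⟨κ, i'⟩ := by
    intro i' hi'
    have h6 := Finset.mem_compl.1 hi'
    rw [(hE κ i' (hSn i' h6)).2.2.2]
    exact hrj.mul _ _ (hA1 i') (hB1 i' h6)
  rw [Finset.sum_congr rfl h5] at h4
  have hJS : Jk κ ⊆ (PKE.sec S κ)ᶜ := by
    intro i' hi'
    rw [Finset.mem_compl]
    intro h'
    exact (Finset.disjoint_left.1 hdis) ((mem_sec S κ i').1 h') ((hJm κ i').2 hi')
  rw [← Finset.sum_sdiff hJS] at h4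
  have h7 : ∑ i' ∈ Jk κ, r (σ j ((τ κ i i' : Ω) * (π ⟨κ, i'⟩ / π ⟨κ, i⟩))) * h ⟨κ, i'⟩ =
      h ⟨κ, i⟩ := by
    rw [Finset.sum_eq_single_of_mem i hi]
    · rw [(hτ κ i hi).2.1, div_self hπi]
      have : (((1 : IntermediateField.adjoin ℚ {a κ}) : Ω)) = 1 := rfl
      rw [this, mul_one, map_one, hr.one, one_mul]
    · intro i' hi' hne
      rw [(hτ κ i hi).2.2.1 i' hi' hne]
      have : (((0 : IntermediateField.adjoin ℚ {a κ}) : Ω)) = 0 := rfl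
      rw [this, zero_mul, map_zero, hr.zero, zero_mul]
  rw [h7] at h4
  -- the entries
  have h8 : ∀ i' : Fin (g κ), flat2 De (fun κ => decide (σ j (a κ) = a κ)) (decide (σ j sp = sp)) S J
      Z ⟨κ, i⟩ ⟨κ, i'⟩ * h ⟨κ, i'⟩ =
      -(r (σ j ((τ κ i i' : Ω) * (π ⟨κ, i'⟩ / π ⟨κ, i⟩))) * h ⟨κ, i'⟩) := by
    intro i'
    rw [flat2_same]
    by_cases hZ' : ((⟨κ, i⟩ : Σ k, Fin (g k)), (⟨κ, i'⟩ : Σ k, Fin (g k))) ∈ Z
    · rw [if_pos hZ', hsecJ]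
      rw [hZm] at hZ'
      have hne : (τ κ i i' : Ω) ≠ 0 := by
        intro h0
        rw [h0, vj.map_zero, zero_mul] at hZ'
        exact (hvπ ⟨κ, i⟩).ne hZ'
      obtain ⟨e', he'⟩ := hVAL Ω p vj hrj.na hp
        (by change v (σ j (p : Ω)) < 1; rw [map_natCast]; exact hvp) (a κ) sp (t κ) (n' κ) (ha κ)
        hsp (τ κ i i' : Ω) (τ κ i i').2 hne
      have h9 : π ⟨κ, i⟩ = π ⟨κ, i'⟩ * sp ^ e' := hsc _ _ e' (by
        rw [← he', ← hZ', mul_comm])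
      have hsp0 : sp ≠ 0 := by
        rintro rfl
        rw [zero_pow two_ne_zero] at hsp
        exact (Nat.cast_ne_zero.2 hp.ne_zero) hsp.symm
      have h10 : π ⟨κ, i'⟩ / π ⟨κ, i⟩ = sp ^ (-e') := by
        rw [h9, zpow_neg]
        have h3 := hπ ⟨κ, i'⟩
        have h4 : sp ^ e' ≠ 0 := zpow_ne_zero _ hsp0
        field_simp
      have h11 := hDe2 κ (σ j) (PKE.sec S κ) (Jk κ) (τ κ)
        (fun j' hj' => ⟨(hmem κ j' hj').1, (hτ κ j' hj').2.1, (hτ κ j' hj').2.2.1,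
          (hmem κ j' hj').2⟩) (hJ κ) i hi i' e' he'
      rw [h10, h11]
      ring
    · rw [if_neg hZ', zero_mul]
      have h9 : vj ((τ κ i i' : Ω) * (π ⟨κ, i'⟩ / π ⟨κ, i⟩)) < 1 := by
        rw [vj.map_mul, map_div₀, ← mul_div_assoc, div_lt_one (hvπ ⟨κ, i⟩)]
        refine lt_of_le_of_ne (hτb i') ?_
        intro h0
        exact hZ' ((hZm κ i i').2 h0)
      have h10 : r (σ j ((τ κ i i' : Ω) * (π ⟨κ, i'⟩ / π ⟨κ, i⟩))) = 0 :=
        (hrj.ker _ h9.le).2 h9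
      rw [h10]
      ring
  -- the sum over the blocks
  have h12 : ∑ i' ∈ (S ∪ J)ᶜ, flat2 De (fun κ => decide (σ j (a κ) = a κ)) (decide (σ j sp = sp)) S J
      Z ⟨κ, i⟩ i' * h i' =
      ∑ i' ∈ (PKE.sec S κ)ᶜ \ Jk κ,
        -(r (σ j ((τ κ i i' : Ω) * (π ⟨κ, i'⟩ / π ⟨κ, i⟩))) * h ⟨κ, i'⟩) := by
    have e1 : (S ∪ J)ᶜ = (Finset.univ : Finset (Fin m)).sigma fun κ => (PKE.sec S κ)ᶜ \ Jk κ := by
      ext ⟨κ', i'⟩
      simp only [Finset.mem_compl, Finset.mem_union, Finset.mem_sigma, Finset.mem_univ, true_and,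
        Finset.mem_sdiff, mem_sec, hJm]
      tauto
    rw [e1, Finset.sum_sigma, Finset.sum_eq_single κ]
    · exact Finset.sum_congr rfl fun i' _ => h8 i'
    · intro κ' _ hne
      refine Finset.sum_eq_zero fun i' _ => ?_
      rw [flat2_ne _ _ _ _ _ _ _ _ hne, zero_mul]
    · intro h'
      exact absurd (Finset.mem_univ _) h'
  rw [h12, Finset.sum_neg_distrib]
  linear_combination h4

end PKT
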